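import Pool.Agent.Helper501.Hdc.Live

namespace Pool.Agent.Helper501.Hdc

open Equiv Pool.Agent.Helper501.Haus Filter Topology

section words

variable {X : Type}

/-- the first letters -/
def tk (n : ℕ) : (l : ℕ) → Wd X (n + l) → Wd X n
  | 0, w => w
  | l + 1, w => tk n l (ini w)

/-- the last letters -/
def dp (n : ℕ) : (l : ℕ) → Wd X (n + l) → Wd X l
  | 0, _ => (() : Wd X 0)
  | l + 1, w => sn (dp n l (ini w)) (lst w)

theorem toL_tk_dp (n l : ℕ) (w : Wd X (n + l)) : toL w = toL (tk n l w) ++ toL (dp n l w) := by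
  induction l with
  | zero => show _ = toL w ++ []; rw [List.append_nil]
  | succ l ih =>
    obtain ⟨w, x, rfl⟩ := exists_sn (n := n + l) w
    show toL (sn w x) = toL (tk n l w) ++ toL (sn (dp n l w) x)
    rw [toL_sn, toL_sn, ih, List.append_assoc]

variable [Fintype X]

/-- A prefix closed property of words which fails after a fixed word has density zero. -/
theorem density (P : List X → Prop) (hpre : ∀ v u, P (v ++ u) → P v) (u0 : List X)
    (hu : ∀ v, ¬ P (v ++ u0)) [Nonempty X] :
    Tendsto (fun n => (Nat.card {v : Wd X n // P (toL v)} : ℝ) / (Fintype.card X : ℝ) ^ n)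
      atTop (𝓝 0) := by
  classical
  set m := Fintype.card X with hm
  have hm0 : 0 < m := Fintype.card_pos
  have hmR : (0 : ℝ) < m := by exact_mod_cast hm0
  set g : ℕ → ℕ := fun n => Nat.card {v : Wd X n // P (toL v)} with hg
  set l := u0.length with hl
  obtain ⟨w0, hw0⟩ := exists_toL' (X := X) u0 (n := l) rfl
  -- the two recursive bounds
  have h1 : ∀ n, g (n + 1) ≤ g n * m := by
    intro n
    have : g n * m = Nat.card ({v : Wd X n // P (toL v)} × X) := by
      rw [Nat.card_prod, Nat.card_eq_fintype_card (α := X)]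
    rw [this]
    have hp : ∀ w : {v : Wd X (n + 1) // P (toL v)}, P (toL (ini w.1)) := by
      intro w
      have := w.2
      rw [← sn_ini_lst w.1, toL_sn] at this
      exact hpre _ _ this
    refine Nat.card_le_card_of_injective
      (fun w : {v : Wd X (n + 1) // P (toL v)} =>
        ((⟨ini w.1, hp w⟩ : {v : Wd X n // P (toL v)}), lst w.1)) ?_
    intro a b h
    have h1 := congrArg (fun p : {v : Wd X n // P (toL v)} × X => p.1.1) h
    have h2 := congrArg (fun p : {v : Wd X n // P (toL v)} × X => p.2) h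
    apply Subtype.ext
    rw [← sn_ini_lst a.1, ← sn_ini_lst b.1]
    exact sn_inj.2 ⟨h1, h2⟩
  have h2 : ∀ n, g (n + l) ≤ g n * (m ^ l - 1) := by
    intro n
    have e : Nat.card {u : Wd X l // u ≠ w0} = m ^ l - 1 := by
      rw [Nat.card_eq_fintype_card, Fintype.card_subtype_compl, card_Wd, Fintype.card_subtype_eq]
    rw [← e, ← Nat.card_prod]
    have hp1 : ∀ w : {v : Wd X (n + l) // P (toL v)}, P (toL (tk n l w.1)) := by
      intro w
      have := w.2
      rw [toL_tk_dp n l w.1] at this
      exact hpre _ _ this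
    have hp2 : ∀ w : {v : Wd X (n + l) // P (toL v)}, dp n l w.1 ≠ w0 := by
      intro w h
      have := w.2
      rw [toL_tk_dp n l w.1, h, hw0] at this
      exact hu _ this
    refine Nat.card_le_card_of_injective
      (fun w : {v : Wd X (n + l) // P (toL v)} =>
        ((⟨tk n l w.1, hp1 w⟩ : {v : Wd X n // P (toL v)}),
          (⟨dp n l w.1, hp2 w⟩ : {u : Wd X l // u ≠ w0}))) ?_
    intro a b h
    have h1 := congrArg (fun p : {v : Wd X n // P (toL v)} × {u : Wd X l // u ≠ w0} => p.1.1) h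
    have h2 := congrArg (fun p : {v : Wd X n // P (toL v)} × {u : Wd X l // u ≠ w0} => p.2.1) h
    apply Subtype.ext
    apply toL_injective
    rw [toL_tk_dp n l a.1, toL_tk_dp n l b.1]
    simp only at h1 h2
    rw [h1, h2]
  set r : ℕ → ℝ := fun n => (g n : ℝ) / (m : ℝ) ^ n with hr
  have hr0 : ∀ n, 0 ≤ r n := fun n => by positivity
  have hanti : Antitone r := by
    apply antitone_nat_of_succ_le
    intro n
    simp only [hr]
    rw [div_le_div_iff₀ (by positivity) (by positivity), pow_succ]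
    have : (g (n + 1) : ℝ) ≤ g n * m := by exact_mod_cast h1 n
    nlinarith [pow_pos hmR n]
  have hbdd : BddBelow (Set.range r) := ⟨0, by rintro _ ⟨n, rfl⟩; exact hr0 n⟩
  have hlim := tendsto_atTop_ciInf hanti hbdd
  set L := ⨅ n, r n with hL
  have hlim2 : Tendsto (fun n => r (n + l)) atTop (𝓝 L) := (tendsto_add_atTop_iff_nat l).2 hlim
  have hq : ∀ n, r (n + l) ≤ (1 - ((m : ℝ) ^ l)⁻¹) * r n := by
    intro n
    simp only [hr]
    have hml : 1 ≤ m ^ l := Nat.one_le_pow _ _ hm0
    have : (g (n + l) : ℝ) ≤ g n * ((m : ℝ) ^ l - 1) := by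
      have h3 := h2 n
      have : ((g (n + l) : ℕ) : ℝ) ≤ ((g n * (m ^ l - 1) : ℕ) : ℝ) := by exact_mod_cast h3
      rw [Nat.cast_mul, Nat.cast_sub hml] at this
      simpa using this
    have hpl : (0 : ℝ) < (m : ℝ) ^ l := by positivity
    have hpn : (0 : ℝ) < (m : ℝ) ^ n := by positivity
    rw [pow_add, div_le_iff₀ (by positivity)]
    have e : (1 - ((m : ℝ) ^ l)⁻¹) * ((g n : ℝ) / (m : ℝ) ^ n) * ((m : ℝ) ^ n * (m : ℝ) ^ l) =
        g n * ((m : ℝ) ^ l - 1) := by
      field_simp
    rw [e]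
    exact this
  have hfin : L ≤ (1 - ((m : ℝ) ^ l)⁻¹) * L :=
    le_of_tendsto_of_tendsto' hlim2 (hlim.const_mul _) hq
  have hL0 : 0 ≤ L := le_ciInf hr0
  have hpl : (0 : ℝ) < ((m : ℝ) ^ l)⁻¹ := by positivity
  have : L = 0 := by nlinarith
  rw [this] at hlim
  exact hlim

end words

namespace Eng

variable {J : Type} (E : Eng J)

/-- the group generated by all states -/
noncomputable def LX : Subgroup (Portrait E.X) := Subgroup.closure (Set.range E.pp)

theorem pp_mem (s : E.St) : E.pp s ∈ E.LX := Subgroup.subset_closure ⟨s, rfl⟩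

theorem ss_LX : SS E.LX := by
  intro g hg
  refine Subgroup.closure_induction (p := fun g _ => ∀ x, sec g x ∈ E.LX) ?_ ?_ ?_ ?_ hg
  · rintro _ ⟨s, rfl⟩ x
    rw [sec_pp]
    exact E.pp_mem _
  · intro x; rw [sec_one]; exact one_mem _
  · intro a b _ _ ha hb x
    rw [sec_mul]
    exact mul_mem (ha _) (hb _)
  · intro a _ ha x
    rw [sec_inv]
    exact inv_mem (ha _)

theorem secL_LX {g : Portrait E.X} (hg : g ∈ E.LX) (v : List E.X) : secL g v ∈ E.LX := by
  induction v generalizing g with
  | nil => exact hg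
  | cons x v ih => exact ih (E.ss_LX g hg x)

/-- sections at the last three letters -/
def Iso (g : Portrait E.X) : Prop :=
  ∀ y : Fin 3, ∃ y', rt g (.inr y) = .inr y' ∧ sec g (.inr y) ∈ E.HH false (some E.rs) 0

theorem iso_pp (s : E.St) : E.Iso (E.pp s) := by
  have hV := E.V_mem false (some E.rs) 0
  have hU := E.A_mem false (some E.rs) 0
  rw [A_zero] at hU
  have h0 : E.T 0 ∈ E.HH false (some E.rs) 0 := by rw [T_zero]; exact one_mem _
  intro y
  cases s with
  | T n => exact ⟨_, E.rt_T_inr n y, by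
      have := E.sec_T_inr n y
      unfold T at this
      rw [this]; exact h0⟩
  | V b =>
    refine ⟨_, E.rt_V_inr b y, ?_⟩
    have := E.sec_V_inr b y
    unfold V at this
    rw [this]
    split_ifs
    · exact hV
    · exact h0
    · exact hU
    · exact hV
  | U o =>
    refine ⟨_, E.rt_U_inr o y, ?_⟩
    cases o with
    | none =>
      have := E.sec_U_none y
      unfold U at this
      rw [this]
      split_ifs
      · exact hV
      · exact hU
    | some q =>
      have := E.sec_U_some q y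
      unfold U at this
      rw [this]
      split_ifs
      · exact hU
      · exact h0

theorem iso_mul {a b : Portrait E.X} (ha : E.Iso a) (hb : E.Iso b) : E.Iso (a * b) := by
  intro y
  obtain ⟨y1, h1, h2⟩ := hb y
  obtain ⟨y2, h3, h4⟩ := ha y1
  refine ⟨y2, ?_, ?_⟩
  · rw [rt_mul, h1, h3]
  · rw [sec_mul, h1]
    exact mul_mem h4 h2

theorem iso_LX {g : Portrait E.X} (hg : g ∈ E.LX) : E.Iso g := by
  have : E.Iso g ∧ E.Iso g⁻¹ := by
    refine Subgroup.closure_induction (p := fun g _ => E.Iso g ∧ E.Iso g⁻¹) ?_ ?_ ?_ ?_ hg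
    · rintro _ ⟨s, rfl⟩
      refine ⟨E.iso_pp s, ?_⟩
      cases s with
      | T n =>
        have := E.T_neg n
        unfold T at this
        rw [← this]
        exact E.iso_pp _
      | V b =>
        have := E.V_sq b
        unfold V at this
        rw [inv_eq_of_mul_eq_one_left this]
        exact E.iso_pp _
      | U o =>
        have := E.U_sq o
        unfold U at this
        rw [inv_eq_of_mul_eq_one_left this]
        exact E.iso_pp _
    · rw [inv_one]
      exact ⟨fun y => ⟨y, rfl, one_mem _⟩, fun y => ⟨y, rfl, one_mem _⟩⟩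
    · intro a b _ _ ha hb
      rw [mul_inv_rev]
      exact ⟨E.iso_mul ha.1 hb.1, E.iso_mul hb.2 ha.2⟩
    · intro a _ ha
      rw [inv_inv]
      exact ⟨ha.2, ha.1⟩
  exact this.1

/-- words which can be moved into the distinguished set -/
def GoodL (w : List E.X) : Prop := ∃ g ∈ E.LX, ∀ x ∈ actL g w, E.inD x

theorem goodL_prefix (v u : List E.X) (h : E.GoodL (v ++ u)) : E.GoodL v := by
  obtain ⟨g, hg, h⟩ := h
  refine ⟨g, hg, fun x hx => h x ?_⟩
  rw [actL_append]
  exact List.mem_append_left _ hx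

theorem goodL_act {g : Portrait E.X} (hg : g ∈ E.LX) (v : List E.X) :
    E.GoodL (actL g v) ↔ E.GoodL v := by
  constructor
  · rintro ⟨k, hk, h⟩
    rw [← actL_mul] at h
    exact ⟨_, mul_mem hk hg, h⟩
  · rintro ⟨k, hk, h⟩
    refine ⟨k * g⁻¹, mul_mem hk (inv_mem hg), ?_⟩
    rw [← actL_mul, inv_mul_cancel_right]
    exact h

theorem exists_bad (h : E.Halts (some E.rs) 0) : ∃ u : List E.X, ∀ v, ¬ E.GoodL (v ++ u) := by
  obtain ⟨w, hw⟩ := E.exists_Sd h
  refine ⟨.inr 0 :: w, ?_⟩
  rintro v ⟨g, hg, hgood⟩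
  rw [actL_append, actL_cons] at hgood
  have h1 := E.secL_LX hg v
  obtain ⟨y', _, h2⟩ := E.iso_LX h1 0
  obtain ⟨x, hx, hx2⟩ := E.Sd_notD (E.Sd_closed h2 hw)
  exact hx2 (hgood x (List.mem_append_right _ (List.mem_cons_of_mem _ hx)))

end Eng

end Pool.Agent.Helper501.Hdc
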