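import Pool.Agent.Helper501.Hdc.Lamp
import Pool.Agent.Helper501.Hdc.Count

namespace Pool.Agent.Helper501.Hdc

open Equiv Pool.Agent.Helper501.Haus Filter Topology

section lower

variable {X : Type} (D : X → Prop)

theorem dl_lab_lt (α : Perm (Fin 5)) (n : ℕ) : ∀ (w : Wd (X × Fin 5) n), ∀ j < n,
    (dl D α (toL w)).lab j = 1 := by
  classical
  induction n with
  | zero => intro w j hj; omega
  | succ n ih =>
    intro w j hj
    obtain ⟨z, w, rfl⟩ := exists_cons n w
    rw [toL_cons, dl]
    cases j with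
    | zero => funext u; exact rt_nsr _ _
    | succ j =>
      funext u
      obtain ⟨y, u, rfl⟩ := exists_cons j u
      rw [← sec_lab, sec_nsr]
      split_ifs
      · rw [ih w j (by omega)]; rfl
      · rfl

open Classical in
theorem dl_lab_self (α : Perm (Fin 5)) (n : ℕ) : ∀ (w v : Wd (X × Fin 5) n),
    (dl D α (toL w)).lab n v = if v = w then Equiv.prodCongr (Equiv.refl X) α else 1 := by
  induction n with
  | zero =>
    intro w v
    rw [if_pos (wd_zero_eq v w)]
    rfl
  | succ n ih =>
    intro w v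
    obtain ⟨z, w, rfl⟩ := exists_cons n w
    obtain ⟨y, v, rfl⟩ := exists_cons n v
    rw [toL_cons, dl, ← sec_lab, sec_nsr]
    by_cases hyz : y = z
    · subst hyz
      rw [if_pos rfl, ih]
      by_cases hvw : v = w
      · subst hvw; rw [if_pos rfl, if_pos rfl]
      · rw [if_neg hvw, if_neg (fun h => hvw (cons_injective _ _ h))]
    · rw [if_neg hyz, if_neg (fun h => hyz (cons_inj_left h))]
      rfl

theorem card_lower [Fintype X] [DecidableEq X] [Nonempty X] (G : Subgroup (Portrait (X × Fin 5))) (n : ℕ)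
    (h : ∀ w : List (X × Fin 5), w.length = n → ∀ α ∈ alternatingGroup (Fin 5), dl D α w ∈ G) :
    2 ^ (Fintype.card (X × Fin 5) ^ n) ≤ Nat.card (KK G n) := by
  classical
  obtain ⟨_, η, hη, hη1⟩ := even_move 2
  have hη' : η ∈ alternatingGroup (Fin 5) := Perm.mem_alternatingGroup.2 hη
  set A : Perm (X × Fin 5) := Equiv.prodCongr (Equiv.refl X) η with hA
  have hA1 : A ≠ 1 := by
    intro h
    obtain ⟨x⟩ := (inferInstance : Nonempty X)
    have := congrArg (fun σ : Perm (X × Fin 5) => (σ (x, 1)).2) h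
    simp only [hA, Perm.one_apply] at this
    have h2 : η 1 = 1 := this
    rw [hη1] at h2
    exact absurd h2 (by decide)
  let F : Finset (Wd (X × Fin 5) n) → (Wd (X × Fin 5) n → Perm (X × Fin 5)) :=
    fun S v => if v ∈ S then A else 1
  have hsingle : ∀ w : Wd (X × Fin 5) n, (fun v => if v = w then A else 1) ∈ KK G n := by
    intro w
    refine ⟨dl D η (toL w), h _ (length_toL w) η hη', dl_lab_lt D η n w, ?_⟩
    funext v
    rw [dl_lab_self D η n w v]
    by_cases hvw : v = w
    · rw [if_pos hvw, if_pos hvw]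
    · rw [if_neg hvw, if_neg hvw]
  have hF : ∀ S, F S ∈ KK G n := by
    intro S
    induction S using Finset.induction with
    | empty =>
      have : F ∅ = 1 := by funext v; simp [F]
      rw [this]; exact one_mem _
    | insert w S hw ih =>
      have : F (insert w S) = (fun v => if v = w then A else 1) * F S := by
        funext v
        simp only [F, Pi.mul_apply, Finset.mem_insert]
        by_cases h1 : v = w
        · subst h1; simp [hw]
        · simp [h1]
      rw [this]
      exact mul_mem (hsingle w) ih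
  have hinj : Function.Injective (fun S : Finset (Wd (X × Fin 5) n) => (⟨F S, hF S⟩ : KK G n)) := by
    intro S S' hSS
    have h1 : F S = F S' := congrArg Subtype.val hSS
    ext v
    have h2 := congrFun h1 v
    simp only [F] at h2
    by_cases hv : v ∈ S <;> by_cases hv' : v ∈ S' <;> simp_all
  have := Nat.card_le_card_of_injective _ hinj
  rwa [Nat.card_eq_fintype_card, Fintype.card_finset, card_Wd] at this

end lower

section upper

variable {X : Type} (D : X → Prop)

/-- second coordinates -/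
def sndW {X Y : Type} : (n : ℕ) → Wd (X × Y) n → Wd Y n
  | 0, _ => (() : Wd Y 0)
  | n + 1, q => sn (sndW n (ini q)) (lst q).2

theorem fst_snd_inj {X Y : Type} (n : ℕ) (v w : Wd (X × Y) n) (h1 : fstW n v = fstW n w)
    (h2 : sndW n v = sndW n w) : v = w := by
  induction n with
  | zero => rfl
  | succ n ih =>
    obtain ⟨v, x, rfl⟩ := exists_sn v
    obtain ⟨w, y, rfl⟩ := exists_sn w
    have h3 : sn (fstW n v) x.1 = sn (fstW n w) y.1 := h1
    have h4 : sn (sndW n v) x.2 = sn (sndW n w) y.2 := h2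
    rw [sn_inj] at h3 h4
    rw [ih _ _ h3.1 h4.1]
    exact sn_inj.2 ⟨rfl, Prod.ext h3.2 h4.2⟩

/-- Portraits acting on the first coordinates by an element of `H`, and on the second coordinates
only after the words of `P`. -/
def Str (H : Subgroup (Portrait X)) (P : List X → Prop) (g : Portrait (X × Fin 5)) : Prop :=
  ∃ gx ∈ H, ∃ φ : (n : ℕ) → Wd (X × Fin 5) n → Perm (Fin 5),
    (∀ n w, g.lab n w = Equiv.prodCongr (gx.lab n (fstW n w)) (φ n w)) ∧
    ∀ n (w : Wd (X × Fin 5) (n + 1)), ¬ P (toL (fstW n (ini w))) → φ (n + 1) w = 1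

theorem fstW_lev' {g : Portrait (X × Fin 5)} {gx : Portrait X}
    {φ : (n : ℕ) → Wd (X × Fin 5) n → Perm (Fin 5)}
    (h : ∀ n w, g.lab n w = Equiv.prodCongr (gx.lab n (fstW n w)) (φ n w)) (n : ℕ)
    (w : Wd (X × Fin 5) n) : fstW n (lev g n w) = lev gx n (fstW n w) := by
  induction n with
  | zero => rfl
  | succ n ih =>
    obtain ⟨w, x, rfl⟩ := exists_sn w
    rw [lev_succ, fstW_sn, ih, fstW_sn, lev_succ, h]; rfl

variable {H : Subgroup (Portrait X)} {P : List X → Prop}

theorem str_mul (hP : ∀ g ∈ H, ∀ v, P (actL g v) ↔ P v) {g h : Portrait (X × Fin 5)}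
    (hg : Str H P g) (hh : Str H P h) : Str H P (g * h) := by
  obtain ⟨gx, hgx, φ, h1, h2⟩ := hg
  obtain ⟨hx, hhx, ψ, h3, h4⟩ := hh
  refine ⟨gx * hx, mul_mem hgx hhx, fun n w => φ n (lev h n w) * ψ n w, ?_, ?_⟩
  · intro n w
    rw [mul_lab, h1, h3, fstW_lev' h3, mul_lab]
    rfl
  · intro n w hw
    show φ (n + 1) (lev h (n + 1) w) * ψ (n + 1) w = 1
    rw [h4 n w hw, mul_one]
    apply h2
    rw [ini_lev, fstW_lev' h3, ← actL_toL, hP hx hhx]
    exact hw

theorem str_inv (hP : ∀ g ∈ H, ∀ v, P (actL g v) ↔ P v) {g : Portrait (X × Fin 5)}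
    (hg : Str H P g) : Str H P g⁻¹ := by
  obtain ⟨gx, hgx, φ, h1, h2⟩ := hg
  have key : ∀ n w, fstW n ((lev g n).symm w) = (lev gx n).symm (fstW n w) := by
    intro n w
    rw [Equiv.eq_symm_apply, ← fstW_lev' h1, Equiv.apply_symm_apply]
  refine ⟨gx⁻¹, inv_mem hgx, fun n w => (φ n ((lev g n).symm w))⁻¹, ?_, ?_⟩
  · intro n w
    rw [inv_lab, h1, inv_lab, key]
    rfl
  · intro n w hw
    rw [inv_eq_one]
    apply h2
    intro h3
    apply hw
    have h5 : fstW (n + 1) ((lev g (n + 1)).symm w) = (lev gx (n + 1)).symm (fstW (n + 1) w) := key _ _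
    have h6 : fstW n (ini ((lev g (n + 1)).symm w)) = ini ((lev gx (n + 1)).symm (fstW (n + 1) w)) :=
      congrArg ini h5
    have h7 : (lev gx n) (ini ((lev gx (n + 1)).symm (fstW (n + 1) w))) = fstW n (ini w) := by
      rw [← ini_lev, Equiv.apply_symm_apply]; rfl
    rw [h6] at h3
    rw [← h7, ← actL_toL, hP gx hgx]
    exact h3

theorem str_one : Str H P (1 : Portrait (X × Fin 5)) :=
  ⟨1, one_mem _, fun _ _ => 1, fun n w => by ext1 z; rfl, fun _ _ _ => rfl⟩

theorem str_lift {g : Portrait X} (hg : g ∈ H) : Str H P (lift X (Fin 5) g) :=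
  ⟨g, hg, fun _ _ => 1, fun _ _ => rfl, fun _ _ _ => rfl⟩

theorem run_C {x : X} {α : Perm (Fin 5)} (n : ℕ) (u : Wd (X × Fin 5) n) {y : X} {β : Perm (Fin 5)}
    (h : run (nextL D) (.C x α) n u = .C y β) : ∀ z ∈ toL (fstW n u), D z := by
  classical
  induction n generalizing y β with
  | zero => intro z hz; simp [toL_zero] at hz
  | succ n ih =>
    obtain ⟨u, t, rfl⟩ := exists_sn u
    have h' : nextL D (run (nextL D) (.C x α) n u) t = .C y β := h
    intro z hz
    rw [fstW_sn, toL_sn, List.mem_append, List.mem_singleton] at hz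
    cases hr : run (nextL D) (.C x α) n u with
    | C x' α' =>
      rw [hr, nextL] at h'
      split_ifs at h' with h1
      rcases hz with hz | rfl
      · exact ih u hr z hz
      · exact h1.2
    | R α' => rw [hr] at h'; exact absurd h' (by simp [nextL])
    | O => rw [hr] at h'; exact absurd h' (by simp [nextL])

/-- the permutation of a lamp state -/
def lph : LS X → Perm (Fin 5)
  | .C _ _ => 1
  | .R α => α
  | .O => 1

theorem outL_lph (s : LS X) : outL s = Equiv.prodCongr (Equiv.refl X) (lph s) := by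
  cases s with
  | C x α => ext1 z; rfl
  | R α => rfl
  | O => ext1 z; rfl

theorem str_lamp (hD : ∀ v : List X, (∀ z ∈ v, D z) → P v) (s : LS X) :
    Str H P (por outL (nextL D) s) := by
  classical
  refine ⟨1, one_mem _, fun n w => lph (run (nextL D) s n w), ?_, ?_⟩
  · intro n w
    exact outL_lph _
  · intro n w hw
    obtain ⟨w, t, rfl⟩ := exists_sn w
    show lph (nextL D (run (nextL D) s n w) t) = 1
    cases hr : run (nextL D) s n w with
    | C x α =>
      have hs : ∃ y β, s = .C y β := by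
        cases s with
        | C y β => exact ⟨y, β, rfl⟩
        | R β =>
          exfalso
          cases n with
          | zero => cases hr
          | succ n =>
            have : ∀ n (w : Wd (X × Fin 5) (n + 1)), run (nextL D) (.R β) (n + 1) w = .O := by
              intro n
              induction n with
              | zero => intro w; rfl
              | succ n ih =>
                intro w
                show nextL D (run (nextL D) (.R β) (n + 1) (ini w)) (lst w) = .O
                rw [ih]; rfl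
            rw [this] at hr
            cases hr
        | O =>
          exfalso
          have : ∀ n (w : Wd (X × Fin 5) n), run (nextL D) .O n w = (.O : LS X) := by
            intro n
            induction n with
            | zero => intro w; rfl
            | succ n ih =>
              intro w
              show nextL D (run (nextL D) .O n (ini w)) (lst w) = .O
              rw [ih]; rfl
          rw [this] at hr
          cases hr
      obtain ⟨y, β, rfl⟩ := hs
      exact absurd (hD _ (run_C D n w hr)) hw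
    | R α => rfl
    | O => rfl

theorem card_upper [Fintype X] [DecidableEq X] (G : Subgroup (Portrait (X × Fin 5)))
    (hG : ∀ g ∈ G, Str H P g) (n : ℕ) : Nat.card (KK G (n + 1)) ≤
      (Fintype.card X).factorial ^ (Fintype.card X ^ (n + 1)) *
        120 ^ (Nat.card {v : Wd X n // P (toL v)} * (5 ^ n * (Fintype.card X * 5))) := by
  classical
  have h1 : ∀ k : KK G (n + 1), ∃ (π : Wd X (n + 1) → Perm X) (φ : Wd (X × Fin 5) (n + 1) → Perm (Fin 5)),
      (∀ w, k.1 w = Equiv.prodCongr (π (fstW _ w)) (φ w)) ∧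
      ∀ w, ¬ P (toL (fstW n (ini w))) → φ w = 1 := by
    rintro ⟨k, g, hg, _, rfl⟩
    obtain ⟨gx, _, φ, h1, h2⟩ := hG g hg
    exact ⟨gx.lab (n + 1), φ (n + 1), h1 (n + 1), h2 n⟩
  choose π φ h1 h2 using h1
  have hinj : Function.Injective (fun k : KK G (n + 1) =>
      ((π k, fun w : {w : Wd (X × Fin 5) (n + 1) // P (toL (fstW n (ini w)))} => φ k w.1) :
        (Wd X (n + 1) → Perm X) × ({w : Wd (X × Fin 5) (n + 1) // P (toL (fstW n (ini w)))} → Perm (Fin 5)))) := by
    intro k k' hkk
    have e1 : π k = π k' := congrArg Prod.fst hkk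
    have e2 := congrArg Prod.snd hkk
    apply Subtype.ext
    funext w
    rw [h1, h1, e1]
    congr 1
    by_cases hw : P (toL (fstW n (ini w)))
    · exact congrFun e2 ⟨w, hw⟩
    · rw [h2 k w hw, h2 k' w hw]
  have h3 := Nat.card_le_card_of_injective _ hinj
  refine h3.trans ?_
  rw [Nat.card_prod]
  have c1 : Nat.card (Wd X (n + 1) → Perm X) =
      (Fintype.card X).factorial ^ (Fintype.card X ^ (n + 1)) := by
    rw [Nat.card_eq_fintype_card, Fintype.card_fun, Fintype.card_perm, card_Wd]
  rw [c1]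
  apply Nat.mul_le_mul_left
  have c2 : Nat.card ({w : Wd (X × Fin 5) (n + 1) // P (toL (fstW n (ini w)))} → Perm (Fin 5)) =
      120 ^ Nat.card {w : Wd (X × Fin 5) (n + 1) // P (toL (fstW n (ini w)))} := by
    rw [Nat.card_eq_fintype_card, Fintype.card_fun, Fintype.card_perm, Nat.card_eq_fintype_card,
      Fintype.card_fin]
    rfl
  rw [c2]
  apply Nat.pow_le_pow_right (by norm_num)
  have c3 : Nat.card {v : Wd X n // P (toL v)} * (5 ^ n * (Fintype.card X * 5)) =
      Nat.card ({v : Wd X n // P (toL v)} × (Wd (Fin 5) n × (X × Fin 5))) := by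
    rw [Nat.card_prod, Nat.card_prod, Nat.card_eq_fintype_card (α := Wd (Fin 5) n), card_Wd,
      Nat.card_eq_fintype_card (α := X × Fin 5), Fintype.card_prod, Fintype.card_fin]
  rw [c3]
  refine Nat.card_le_card_of_injective
    (fun w : {w : Wd (X × Fin 5) (n + 1) // P (toL (fstW n (ini w)))} =>
      ((⟨fstW n (ini w.1), w.2⟩ : {v : Wd X n // P (toL v)}), (sndW n (ini w.1), lst w.1))) ?_
  intro a b hab
  have e1 := congrArg (fun p : {v : Wd X n // P (toL v)} × (Wd (Fin 5) n × (X × Fin 5)) => p.1.1) hab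
  have e2 := congrArg (fun p : {v : Wd X n // P (toL v)} × (Wd (Fin 5) n × (X × Fin 5)) => p.2.1) hab
  have e3 := congrArg (fun p : {v : Wd X n // P (toL v)} × (Wd (Fin 5) n × (X × Fin 5)) => p.2.2) hab
  apply Subtype.ext
  rw [← sn_ini_lst a.1, ← sn_ini_lst b.1]
  exact sn_inj.2 ⟨fst_snd_inj _ _ _ e1 e2, e3⟩

theorem aa_to_zero [Fintype X] [DecidableEq X] [Nonempty X] (G : Subgroup (Portrait (X × Fin 5)))
    (hG : ∀ g ∈ G, Str H P g)
    (hlim : Tendsto (fun n => (Nat.card {v : Wd X n // P (toL v)} : ℝ) / (Fintype.card X : ℝ) ^ n)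
      atTop (𝓝 0)) : Tendsto (aa G) atTop (𝓝 0) := by
  rw [← tendsto_add_atTop_iff_nat 1]
  set m := Fintype.card X with hm
  have hm0 : 0 < m := Fintype.card_pos
  have hmR : (0 : ℝ) < m := by exact_mod_cast hm0
  have hcard : Fintype.card (X × Fin 5) = m * 5 := by rw [Fintype.card_prod, Fintype.card_fin]
  have hbound : ∀ n, aa G (n + 1) ≤ Real.log (m.factorial) * ((1 / 5 : ℝ) ^ (n + 1)) +
      ((Nat.card {v : Wd X n // P (toL v)} : ℝ) / (m : ℝ) ^ n) * Real.log 120 := by
    intro n
    unfold aa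
    have h1 := card_upper G hG n
    have h2 : 0 < Nat.card (KK G (n + 1)) := Nat.card_pos
    have h3 : Real.log (Nat.card (KK G (n + 1))) ≤ Real.log (((m.factorial ^ (m ^ (n + 1)) *
        120 ^ (Nat.card {v : Wd X n // P (toL v)} * (5 ^ n * (m * 5))) : ℕ) : ℝ)) := by
      apply Real.log_le_log
      · exact_mod_cast h2
      · exact_mod_cast h1
    have h4 : Real.log (((m.factorial ^ (m ^ (n + 1)) *
        120 ^ (Nat.card {v : Wd X n // P (toL v)} * (5 ^ n * (m * 5))) : ℕ) : ℝ)) =
        (m : ℝ) ^ (n + 1) * Real.log (m.factorial) +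
        (Nat.card {v : Wd X n // P (toL v)} : ℝ) * ((5 : ℝ) ^ n * (m * 5)) * Real.log 120 := by
      have hf : (0 : ℝ) < m.factorial := by exact_mod_cast Nat.factorial_pos m
      push_cast
      rw [Real.log_mul (by positivity) (by positivity), Real.log_pow, Real.log_pow]
      push_cast
      ring
    rw [h4] at h3
    rw [hcard]
    push_cast
    rw [div_le_iff₀ (by positivity)]
    refine h3.trans (le_of_eq ?_)
    have e5 : ((1 / 5 : ℝ)) ^ (n + 1) * ((m : ℝ) * 5) ^ (n + 1) = (m : ℝ) ^ (n + 1) := by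
      rw [← mul_pow]; congr 1; ring
    have e6 : ((Nat.card {v : Wd X n // P (toL v)} : ℝ) / (m : ℝ) ^ n) * Real.log 120 *
        ((m : ℝ) * 5) ^ (n + 1) =
        (Nat.card {v : Wd X n // P (toL v)} : ℝ) * ((5 : ℝ) ^ n * (m * 5)) * Real.log 120 := by
      rw [mul_pow, pow_succ (m : ℝ), pow_succ (5 : ℝ)]
      field_simp
    have e7 : Real.log (m.factorial) * ((1 / 5 : ℝ) ^ (n + 1)) * ((m : ℝ) * 5) ^ (n + 1) =
        Real.log (m.factorial) * (((1 / 5 : ℝ)) ^ (n + 1) * ((m : ℝ) * 5) ^ (n + 1)) := by ring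
    rw [add_mul, e6, e7, e5]
    ring
  have hlim2 : Tendsto (fun n => Real.log (m.factorial) * ((1 / 5 : ℝ) ^ (n + 1)) +
      ((Nat.card {v : Wd X n // P (toL v)} : ℝ) / (m : ℝ) ^ n) * Real.log 120) atTop (𝓝 0) := by
    have h1 : Tendsto (fun n : ℕ => ((1 / 5 : ℝ) ^ (n + 1))) atTop (𝓝 0) := by
      rw [tendsto_add_atTop_iff_nat (f := fun n : ℕ => (1 / 5 : ℝ) ^ n) 1]
      exact tendsto_pow_atTop_nhds_zero_of_lt_one (by norm_num) (by norm_num)
    have := (h1.const_mul (Real.log (m.factorial))).add (hlim.mul_const (Real.log 120))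
    simpa using this
  exact squeeze_zero (fun n => aa_nonneg G _) hbound hlim2

end upper

end Pool.Agent.Helper501.Hdc
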