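import Pool.Agent.Helper501.Hdc.Machine
import Pool.Agent.Helper501.Hdc.Upper

namespace Pool.Agent.Helper501.Hdc

open Equiv Pool.Agent.Helper501.Haus Filter Topology

section auto

variable {Q : Type} (M : Sys Q Bool) (q0 : Q) (N : ℕ)

/-- letters -/
abbrev XX : Type := (Ins Q M.B × Fin (2 * max M.l M.B + 1) × (Bool → Fin M.B)) ⊕ Fin 3

/-- letters with lamps -/
abbrev ZZ : Type := XX M × Fin 5

/-- distinguished letters -/
def inDX : XX M → Prop
  | .inl (_, c, _) => (c : ℕ) = 0
  | .inr y => y ≠ 1

theorem inD_eq : (eng M q0 N).inD = inDX M := by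
  funext x
  rcases x with ⟨i, c, r⟩ | y
  · rfl
  · rfl

/-- fixed states -/
inductive Fx : Type
  | t (e : Bool → Fin 3) : Fx
  | v (b : Bool) : Fx
  | u (o : Option (Option Q)) : Fx
  | c (s : LS (XX M)) : Fx

/-- small vectors -/
def ev (e : Bool → Fin 3) : Bool → ℤ := fun j => ((e j : ℕ) : ℤ) - 1

/-- small vectors -/
def en (n : Bool → ℤ) : Bool → Fin 3 := fun j => if n j = -1 then 0 else if n j = 1 then 2 else 1

theorem ev_en (n : Bool → ℤ) (h : ∀ j, n j = -1 ∨ n j = 0 ∨ n j = 1) : ev (en n) = n := by
  funext j
  rcases h j with h | h | h <;> simp [ev, en, h]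

open Classical in
/-- transitions of the fixed states; `none` stands for the first loader -/
noncomputable def nextF : Fx M → ZZ M → Option (Fx M)
  | .t e, (.inl (i, c, r), _) =>
      some (.t (en fun j => (eng M q0 0).rho i c j * (eng M q0 0).kap (ev e) r j))
  | .t _, (.inr _, _) => some (.t (en 0))
  | .v b, (.inl (i, c, r), _) => if (c : ℕ) = 0 then some (.v (b || decide (∃ j, (r j : ℕ) ≠ 0)))
      else some (.t (en ((eng M q0 0).sig i c)))
  | .v b, (.inr y, _) => if b then (if y = 0 then some (.v false) else some (.t (en 0)))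
      else (if y = 1 then some (.u (some none)) else some (.v false))
  | .u none, (.inl (_, c, _), _) => if (c : ℕ) = max M.l M.B then some (.u (some none))
      else some (.t (en 0))
  | .u (some none), (.inl (i, c, _), _) => if (c : ℕ) = max M.l M.B then
      (if (Ins.rst : Ins Q M.B) = i then none else some (.u (some none))) else some (.t (en 0))
  | .u (some (some q)), (.inl (i, c, r), _) => if (c : ℕ) = max M.l M.B then
      (if (Ins.orig q r : Ins Q M.B) = i then some (.u ((M.nxt q r).map some))
        else some (.u (some none))) else some (.t (en 0))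
  | .u (some _), (.inr y, _) => if y = 2 then some (.u (some none)) else some (.t (en 0))
  | .u none, (.inr y, _) => if y = 1 then some (.v false) else some (.u (some none))
  | .c s, z => some (.c (nextL (inDX M) s z))

open Classical in
/-- transitions of the loaders; `none` stands for the next loader -/
noncomputable def nextV : ZZ M → Option (Fx M)
  | (.inl (i, c, r), _) => if (c : ℕ) = max M.l M.B then
      (if (Ins.inc r : Ins Q M.B) = i then none else some (.u (some none))) else some (.t (en 0))
  | (.inr y, _) => if y = 2 then some (.u (some none)) else some (.t (en 0))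

open Classical in
/-- transitions of the last loader -/
noncomputable def lastV : ZZ M → Fx M
  | (.inl (i, c, r), _) => if (c : ℕ) = max M.l M.B then
      (if (Ins.idn r : Ins Q M.B) = i then .u (some (some q0)) else .u (some none)) else .t (en 0)
  | (.inr y, _) => if y = 2 then .u (some none) else .t (en 0)

/-- transitions -/
noncomputable def nextS : Fx M ⊕ Fin (N + 1) → ZZ M → Fx M ⊕ Fin (N + 1)
  | .inl f, z => (nextF M q0 f z).elim (.inr 0) .inl
  | .inr k, z => if h : (k : ℕ) < N then (nextV M z).elim (.inr ⟨k + 1, by omega⟩) .inl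
      else .inl (lastV M q0 z)

/-- states of the toggles -/
def conv : Option (Option Q) → Option (Q ⊕ Option ℕ)
  | none => none
  | some none => some (.inr none)
  | some (some q) => some (.inl q)

/-- the portraits of the states -/
noncomputable def sem : Fx M ⊕ Fin (N + 1) → Portrait (ZZ M)
  | .inl (.t e) => lift (XX M) (Fin 5) ((eng M q0 N).T (ev e))
  | .inl (.v b) => lift (XX M) (Fin 5) ((eng M q0 N).V b)
  | .inl (.u o) => lift (XX M) (Fin 5) ((eng M q0 N).U (conv o))
  | .inl (.c s) => por outL (nextL (inDX M)) s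
  | .inr k => lift (XX M) (Fin 5) ((eng M q0 N).U (some (.inr (some (k : ℕ)))))

/-- outputs of the fixed states -/
def outF : Fx M → Perm (ZZ M)
  | .t e => Equiv.prodCongr ((eng M q0 0).out (.T (ev e))) (Equiv.refl _)
  | .v b => Equiv.prodCongr ((eng M q0 0).out (.V b)) (Equiv.refl _)
  | .u o => Equiv.prodCongr ((eng M q0 0).out (.U (conv o))) (Equiv.refl _)
  | .c s => outL s

/-- outputs of the loaders -/
def outV : Perm (ZZ M) := Equiv.prodCongr ((eng M q0 0).out (.U (some (.inr none)))) (Equiv.refl _)

/-- outputs -/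
def outS : Fx M ⊕ Fin (N + 1) → Perm (ZZ M)
  | .inl f => outF M q0 f
  | .inr _ => outV M q0

theorem rt_sem (s : Fx M ⊕ Fin (N + 1)) : rt (sem M q0 N s) = outS M q0 N s := by
  rcases s with (e | b | o | s) | k
  · rfl
  · rfl
  · cases o <;> rfl
  · rfl
  · rfl

theorem kap_small (e : Bool → Fin 3) (r : Bool → Fin M.B) (j : Bool) :
    (eng M q0 0).kap (ev e) r j = -1 ∨ (eng M q0 0).kap (ev e) r j = 0 ∨
      (eng M q0 0).kap (ev e) r j = 1 := by
  show (((r j : ℕ) : ℤ) + (((e j : ℕ) : ℤ) - 1)) / (M.B : ℤ) = -1 ∨
    (((r j : ℕ) : ℤ) + (((e j : ℕ) : ℤ) - 1)) / (M.B : ℤ) = 0 ∨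
    (((r j : ℕ) : ℤ) + (((e j : ℕ) : ℤ) - 1)) / (M.B : ℤ) = 1
  have hB := M.hB
  have h1 := (r j).2
  have h2 := (e j).2
  set z := ((r j : ℕ) : ℤ) + (((e j : ℕ) : ℤ) - 1) with hz
  have h3 : -1 ≤ z := by omega
  have h4 : z ≤ M.B := by omega
  have h5 : -1 ≤ z / (M.B : ℤ) := by
    rw [Int.le_ediv_iff_mul_le (by omega)]
    omega
  have h6 : z / (M.B : ℤ) < 2 := by
    rw [Int.ediv_lt_iff_lt_mul (by omega)]
    omega
  omega

theorem ev_en_kap (e : Bool → Fin 3) (i : Ins Q M.B) (c : Fin (2 * max M.l M.B + 1))
    (r : Bool → Fin M.B) :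
    ev (en fun j => (eng M q0 0).rho i c j * (eng M q0 0).kap (ev e) r j) =
      fun j => (eng M q0 0).rho i c j * (eng M q0 0).kap (ev e) r j := by
  apply ev_en
  intro j
  have h := kap_small M q0 e r j
  have h2 : (eng M q0 0).rho i c j = 0 ∨ (eng M q0 0).rho i c j = 1 := by
    unfold Eng.rho
    split_ifs
    · right; rfl
    · left; rfl
  rcases h2 with h2 | h2 <;> rw [h2]
  · right; left; rw [zero_mul]
  · rw [one_mul]; exact h

theorem ev_en_sig (i : Ins Q M.B) (c : Fin (2 * max M.l M.B + 1)) :
    ev (en ((eng M q0 0).sig i c)) = (eng M q0 0).sig i c := by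
  apply ev_en
  intro j
  unfold Eng.sig Eng.sh
  split_ifs
  · left; rfl
  · right; left; rfl
  · right; right; rfl
  · right; left; rfl

theorem ev_en_zero : ev (en 0) = 0 := ev_en _ fun _ => Or.inr (Or.inl rfl)

theorem sec_sem (s : Fx M ⊕ Fin (N + 1)) (z : ZZ M) :
    sec (sem M q0 N s) z = sem M q0 N (nextS M q0 N s z) := by
  classical
  obtain ⟨x, y⟩ := z
  rcases s with (e | b | o | s) | k
  · -- odometers
    show sec (lift (XX M) (Fin 5) ((eng M q0 N).T (ev e))) (x, y) = _
    rw [sec_lift]
    rcases x with ⟨i, c, r⟩ | t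
    · have h1 := (eng M q0 N).sec_T_inl (ev e) i c r
      refine (congrArg (lift (XX M) (Fin 5)) h1).trans ?_
      show _ = lift (XX M) (Fin 5) ((eng M q0 N).T (ev (en _)))
      rw [ev_en_kap]
      rfl
    · have h1 := (eng M q0 N).sec_T_inr (ev e) t
      refine (congrArg (lift (XX M) (Fin 5)) h1).trans ?_
      show _ = lift (XX M) (Fin 5) ((eng M q0 N).T (ev (en _)))
      rw [ev_en_zero]
  · -- reflections
    show sec (lift (XX M) (Fin 5) ((eng M q0 N).V b)) (x, y) = _
    rw [sec_lift]
    rcases x with ⟨i, c, r⟩ | t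
    · by_cases hc : (c : ℕ) = 0
      · have h1 := (eng M q0 N).sec_V_zero b i c r hc
        refine (congrArg (lift (XX M) (Fin 5)) h1).trans ?_
        simp only [nextS, nextF, if_pos hc]
        show _ = lift (XX M) (Fin 5) ((eng M q0 N).V (b || decide (∃ j, (r j : ℕ) ≠ 0)))
        refine congrArg (fun t => lift (XX M) (Fin 5) ((eng M q0 N).V (b || t))) ?_
        exact decide_eq_decide.2 Iff.rfl
      · have h1 := (eng M q0 N).sec_V_inl b i c r hc
        refine (congrArg (lift (XX M) (Fin 5)) h1).trans ?_
        simp only [nextS, nextF, if_neg hc]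
        show _ = lift (XX M) (Fin 5) ((eng M q0 N).T (ev (en _)))
        rw [ev_en_sig]
        rfl
    · have h1 := (eng M q0 N).sec_V_inr b t
      refine (congrArg (lift (XX M) (Fin 5)) h1).trans ?_
      simp only [nextS, nextF]
      cases b
      · simp only [Bool.false_eq_true, if_false]
        split_ifs <;> rfl
      · simp only [if_true]
        split_ifs
        · rfl
        · show _ = lift (XX M) (Fin 5) ((eng M q0 N).T (ev (en _)))
          rw [ev_en_zero]
  · -- toggles
    show sec (lift (XX M) (Fin 5) ((eng M q0 N).U (conv o))) (x, y) = _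
    rw [sec_lift]
    rcases x with ⟨i, c, r⟩ | t
    · by_cases hc : (c : ℕ) = max M.l M.B
      · have h1 := (eng M q0 N).sec_U_l (conv o) i c r hc
        refine (congrArg (lift (XX M) (Fin 5)) h1).trans ?_
        rcases o with _ | _ | q
        · simp only [nextS, nextF, if_pos hc]
          rfl
        · simp only [nextS, nextF, if_pos hc]
          show lift (XX M) (Fin 5) ((eng M q0 N).U (if Ins.rst = i then some (.inr (some 0)) else some (.inr none))) = _
          split_ifs
          · rfl
          · rfl
        · simp only [nextS, nextF, if_pos hc]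
          show lift (XX M) (Fin 5) ((eng M q0 N).U (if Ins.orig q r = i then (M.nxt q r).map Sum.inl else some (.inr none))) = _
          split_ifs
          · cases hx : M.nxt q r <;> rfl
          · rfl
      · have h1 := (eng M q0 N).sec_U_inl (conv o) i c r hc
        refine (congrArg (lift (XX M) (Fin 5)) h1).trans ?_
        rcases o with _ | _ | q <;> simp only [nextS, nextF, if_neg hc] <;>
        · show _ = lift (XX M) (Fin 5) ((eng M q0 N).T (ev (en _)))
          rw [ev_en_zero]
    · rcases o with _ | o
      · have h1 := (eng M q0 N).sec_U_none t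
        refine (congrArg (lift (XX M) (Fin 5)) h1).trans ?_
        simp only [nextS, nextF]
        split_ifs <;> rfl
      · have h0 : ∃ q, conv (some o) = some q := by cases o <;> exact ⟨_, rfl⟩
        obtain ⟨q, hq⟩ := h0
        have h1 := (eng M q0 N).sec_U_some q t
        rw [hq]
        refine (congrArg (lift (XX M) (Fin 5)) h1).trans ?_
        simp only [nextS, nextF]
        split_ifs
        · rfl
        · show _ = lift (XX M) (Fin 5) ((eng M q0 N).T (ev (en _)))
          rw [ev_en_zero]
  · -- lamps
    exact sec_por _ _ _ _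
  · -- loaders
    show sec (lift (XX M) (Fin 5) ((eng M q0 N).U (some (.inr (some (k : ℕ)))))) (x, y) = _
    rw [sec_lift]
    rcases x with ⟨i, c, r⟩ | t
    · by_cases hc : (c : ℕ) = max M.l M.B
      · have h1 := (eng M q0 N).sec_U_l (some (.inr (some (k : ℕ)))) i c r hc
        refine (congrArg (lift (XX M) (Fin 5)) h1).trans ?_
        show lift (XX M) (Fin 5) ((eng M q0 N).U (if (if (k : ℕ) < N then Ins.inc r else Ins.idn r) = i then
            (if (k : ℕ) < N then some (.inr (some ((k : ℕ) + 1))) else some (.inl q0)) else some (.inr none))) = _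
        by_cases hk : (k : ℕ) < N
        · simp only [nextS, nextV, if_pos hc, dif_pos hk, if_pos hk]
          split_ifs
          · rfl
          · rfl
        · simp only [nextS, lastV, if_pos hc, dif_neg hk, if_neg hk]
          split_ifs
          · rfl
          · rfl
      · have h1 := (eng M q0 N).sec_U_inl (some (.inr (some (k : ℕ)))) i c r hc
        refine (congrArg (lift (XX M) (Fin 5)) h1).trans ?_
        by_cases hk : (k : ℕ) < N
        · simp only [nextS, nextV, if_neg hc, dif_pos hk]
          show _ = lift (XX M) (Fin 5) ((eng M q0 N).T (ev (en _)))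
          rw [ev_en_zero]
        · simp only [nextS, lastV, if_neg hc, dif_neg hk]
          show _ = lift (XX M) (Fin 5) ((eng M q0 N).T (ev (en _)))
          rw [ev_en_zero]
    · have h1 := (eng M q0 N).sec_U_some (.inr (some (k : ℕ))) t
      refine (congrArg (lift (XX M) (Fin 5)) h1).trans ?_
      by_cases hk : (k : ℕ) < N
      · simp only [nextS, nextV, dif_pos hk]
        split_ifs
        · rfl
        · show _ = lift (XX M) (Fin 5) ((eng M q0 N).T (ev (en _)))
          rw [ev_en_zero]
      · simp only [nextS, lastV, dif_neg hk]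
        split_ifs
        · rfl
        · show _ = lift (XX M) (Fin 5) ((eng M q0 N).T (ev (en _)))
          rw [ev_en_zero]

end auto

end Pool.Agent.Helper501.Hdc
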