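import Mathlib

/-!
Official definitions for MP_4ffd61_al: tree automorphisms, closures, Hausdorff dimension, finite
invertible automata, the groups generated by their states, and their tables.
-/

namespace Pool.Agent.Helper501.Hdc.Official

open Equiv Filter Topology

/-- The automorphism group of the rooted tree of words over `Fin m`: the bijections of the set of
words which preserve the length and the relation of being an initial part. -/
def treeAut (m : ℕ) : Set (Perm (List (Fin m))) :=
  {g | (∀ w, (g w).length = w.length) ∧ ∀ u v, u <+: v → g u <+: g v}

/-- The closure of `L` in the automorphism group of the tree: the tree automorphisms which on the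
words of length at most `n` agree with an element of `L`, for every `n`. -/
def treeClosure {m : ℕ} (L : Subgroup (Perm (List (Fin m)))) : Set (Perm (List (Fin m))) :=
  {g | g ∈ treeAut m ∧ ∀ n : ℕ, ∃ h ∈ L, ∀ w : List (Fin m), w.length ≤ n → g w = h w}

/-- The number of restrictions of elements of `S` to the words of length at most `n`. -/
noncomputable def levelCard {m : ℕ} (n : ℕ) (S : Set (Perm (List (Fin m)))) : ℕ :=
  Set.ncard ((fun (g : Perm (List (Fin m))) (w : {w : List (Fin m) // w.length ≤ n}) => g w.1) '' S)

/-- Hausdorff dimension of a closed subset of the automorphism group of the tree. -/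
noncomputable def hdim {m : ℕ} (S : Set (Perm (List (Fin m)))) : ℝ :=
  liminf (fun n : ℕ => Real.log (levelCard n S) / Real.log (levelCard n (treeAut m))) atTop

/-- A finite invertible automaton with `m` letters and `s` states: in the state `q` the letter `x`
is replaced by the letter `out q x`, and the next state is `next q x`. -/
structure Automaton where
  m : ℕ
  s : ℕ
  two_le : 2 ≤ m
  pos : 0 < s
  next : Fin s → Fin m → Fin s
  out : Fin s → Perm (Fin m)

namespace Automaton

variable (A : Automaton)

/-- The action of the states on words: `q (x w) = (out q x) ((next q x) w)`. -/
def act : Fin A.s → List (Fin A.m) → List (Fin A.m)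
  | _, [] => []
  | q, x :: w => A.out q x :: act (A.next q x) w

/-- The inverse action. -/
def actInv : Fin A.s → List (Fin A.m) → List (Fin A.m)
  | _, [] => []
  | q, y :: w => (A.out q).symm y :: actInv (A.next q ((A.out q).symm y)) w

theorem actInv_act (q : Fin A.s) (w : List (Fin A.m)) : A.actInv q (A.act q w) = w := by
  induction w generalizing q with
  | nil => rfl
  | cons x w ih => simp [act, actInv, ih]

theorem act_actInv (q : Fin A.s) (w : List (Fin A.m)) : A.act q (A.actInv q w) = w := by
  induction w generalizing q with
  | nil => rfl
  | cons x w ih => simp [act, actInv, ih]

/-- The permutation of the set of all words given by a state. -/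
def perm (q : Fin A.s) : Perm (List (Fin A.m)) :=
  ⟨A.act q, A.actInv q, A.actInv_act q, A.act_actInv q⟩

/-- The group generated by the states. -/
def group : Subgroup (Perm (List (Fin A.m))) := Subgroup.closure (Set.range A.perm)

/-- The finite tables: the numbers of letters and of states, and for every state `q` the list, over
all letters `x`, of the pairs (next state, output letter). -/
def tables : ℕ × ℕ × List (List (ℕ × ℕ)) :=
  (A.m, A.s, List.ofFn fun q => List.ofFn fun x => ((A.next q x : ℕ), (A.out q x : ℕ)))

end Automaton

end Pool.Agent.Helper501.Hdc.Official
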