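import Pool.Agent.Helper501.Hdc.Auto

namespace Pool.Agent.Helper501.Hdc

open Equiv Pool.Agent.Helper501.Haus Filter Topology

section dims

variable {Q : Type} (M : Sys Q Bool) (q0 : Q) (N : ℕ)

instance finIns [Finite Q] (B : ℕ) : Finite (Ins Q B) := by
  let f : Ins Q B → (Q × (Bool → Fin B)) ⊕ (Bool → Fin B) ⊕ (Bool → Fin B) ⊕ Unit := fun i =>
    match i with
    | .orig q r => .inl (q, r)
    | .inc r => .inr (.inl r)
    | .idn r => .inr (.inr (.inl r))
    | .rst => .inr (.inr (.inr ()))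
  refine Finite.of_injective f ?_
  intro a b h
  cases a <;> cases b <;> simp_all [f]

noncomputable instance fintypeIns [Finite Q] (B : ℕ) : Fintype (Ins Q B) := Fintype.ofFinite _
noncomputable instance decIns (B : ℕ) : DecidableEq (Ins Q B) := Classical.decEq _

/-- the group generated by the states -/
noncomputable def LG : Subgroup (Portrait (ZZ M)) := Subgroup.closure (Set.range (sem M q0 N))

theorem sem_mem (s : Fx M ⊕ Fin (N + 1)) : sem M q0 N s ∈ LG M q0 N :=
  Subgroup.subset_closure ⟨s, rfl⟩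

theorem ss_LG : SS (LG M q0 N) := by
  intro g hg
  refine Subgroup.closure_induction (p := fun g _ => ∀ x, sec g x ∈ LG M q0 N) ?_ ?_ ?_ ?_ hg
  · rintro _ ⟨s, rfl⟩ x
    rw [sec_sem]
    exact sem_mem M q0 N _
  · intro x; rw [sec_one]; exact one_mem _
  · intro a b _ _ ha hb x
    rw [sec_mul]
    exact mul_mem (ha _) (hb _)
  · intro a _ ha x
    rw [sec_inv]
    exact inv_mem (ha _)

theorem goodL_D (v : List (XX M)) (h : ∀ z ∈ v, inDX M z) : (eng M q0 N).GoodL v := by
  refine ⟨1, one_mem _, fun x hx => ?_⟩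
  rw [inD_eq]
  rw [actL_one] at hx
  exact h x hx

theorem str_LG {g : Portrait (ZZ M)} (hg : g ∈ LG M q0 N) :
    Str (X := XX M) (eng M q0 N).LX (eng M q0 N).GoodL g := by
  have hP : ∀ g ∈ (eng M q0 N).LX, ∀ v, (eng M q0 N).GoodL (actL g v) ↔ (eng M q0 N).GoodL v :=
    fun g hg v => (eng M q0 N).goodL_act hg v
  refine Subgroup.closure_induction
    (p := fun g _ => Str (X := XX M) (eng M q0 N).LX (eng M q0 N).GoodL g) ?_ ?_ ?_ ?_ hg
  · rintro _ ⟨s, rfl⟩
    rcases s with (e | b | o | s) | k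
    · exact str_lift (X := XX M) ((eng M q0 N).pp_mem _)
    · exact str_lift (X := XX M) ((eng M q0 N).pp_mem _)
    · exact str_lift (X := XX M) ((eng M q0 N).pp_mem _)
    · exact str_lamp (inDX M) (goodL_D M q0 N) s
    · exact str_lift (X := XX M) ((eng M q0 N).pp_mem _)
  · exact str_one (X := XX M)
  · intro a b _ _ ha hb
    exact str_mul (X := XX M) hP ha hb
  · intro a _ ha
    exact str_inv (X := XX M) hP ha

variable [Finite Q]

theorem LG_dead (h : M.Halts (some q0) (Source.ini N)) :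
    Tendsto (aa (LG M q0 N)) atTop (𝓝 0) := by
  have h0 : (eng M q0 N).Halts (some (eng M q0 N).rs) 0 := (halts_rs M q0 N 0).2 h
  obtain ⟨u, hu⟩ := (eng M q0 N).exists_bad h0
  exact aa_to_zero (X := XX M) (LG M q0 N) (fun g hg => str_LG M q0 N hg)
    (density (X := XX M) _ (fun v u h => (eng M q0 N).goodL_prefix v u h) u hu)

theorem GG_le : GG (inDX M) ((eng M q0 N).V false) ((eng M q0 N).U (some (eng M q0 N).rs)) ≤
    LG M q0 N := by
  unfold GG
  rw [Subgroup.closure_le]
  rintro g ((hg | ⟨x, α, _, rfl⟩) | ⟨α, _, rfl⟩)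
  · rcases hg with rfl | rfl
    · exact sem_mem M q0 N (.inl (.v false))
    · exact sem_mem M q0 N (.inl (.u (some none)))
  · exact sem_mem M q0 N (.inl (.c (.C x α)))
  · exact sem_mem M q0 N (.inl (.c (.R α)))

theorem LG_live (h : ¬ M.Halts (some q0) (Source.ini N)) :
    ∃ v, Real.log 2 ≤ v ∧ Tendsto (aa (LG M q0 N)) atTop (𝓝 v) := by
  have hR : ∀ m, ¬ (eng M q0 N).Halts (some (eng M q0 N).rs) m := fun m hm =>
    h ((halts_rs M q0 N m).1 hm)
  obtain ⟨v, hv, _, _⟩ := aa_tendsto (ss_LG M q0 N)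
  refine ⟨v, ?_, hv⟩
  refine ge_of_tendsto' hv fun n => ?_
  have h1 : ∀ w : List (ZZ M), w.length = n → ∀ α ∈ alternatingGroup (Fin 5),
      dl (inDX M) α w ∈ LG M q0 N := by
    intro w hw α hα
    apply GG_le M q0 N
    refine NN_le (inDX M) (lr_sub_GG (inDX M) _ _) ?_
    refine dl_mem (inDX M) (eng M q0 N).LP ?_ n _ _ ((eng M q0 N).lp_rs hR) w hw α hα
    intro v a hva x
    have := (eng M q0 N).step_live hR hva x
    rw [inD_eq] at this
    exact this
  have h2 := card_lower (X := XX M) (inDX M) (LG M q0 N) n h1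
  unfold aa
  have hX : (0 : ℝ) < Fintype.card (ZZ M) := by exact_mod_cast Fintype.card_pos
  rw [le_div_iff₀ (by positivity)]
  have h3 : Real.log ((2 ^ (Fintype.card (ZZ M) ^ n) : ℕ) : ℝ) ≤ Real.log (Nat.card (KK (LG M q0 N) n)) := by
    apply Real.log_le_log
    · positivity
    · exact_mod_cast h2
  rw [Nat.cast_pow, Real.log_pow] at h3
  push_cast at h3
  linarith

end dims

end Pool.Agent.Helper501.Hdc
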