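import Pool.Agent.Helper501.Hdc.Live

namespace Pool.Agent.Helper501.Hdc

open Equiv Pool.Agent.Helper501.Haus
open scoped commutatorElement

section perms

theorem even_move : ∀ y : Fin 5, (∃ σ : Perm (Fin 5), Perm.sign σ = 1 ∧ σ 0 = y) ∧
    ∃ σ : Perm (Fin 5), Perm.sign σ = 1 ∧ σ 1 = y := by decide +kernel

theorem even_fix : (∃ σ : Perm (Fin 5), Perm.sign σ = 1 ∧ σ 0 = 0 ∧ σ 1 = 2) ∧
    ∃ σ : Perm (Fin 5), Perm.sign σ = 1 ∧ σ 0 = 0 ∧ σ 1 = 3 := by decide +kernel

theorem even_noncomm : ∃ σ τ : Perm (Fin 5), Perm.sign σ = 1 ∧ Perm.sign τ = 1 ∧ σ * τ ≠ τ * σ := by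
  refine ⟨swap 0 1 * swap 1 2, swap 2 3 * swap 3 4, ?_, ?_, ?_⟩ <;> decide +kernel

/-- A subgroup of even permutations of five points containing all commutators is everything. -/
theorem all_even (S : Subgroup (Perm (Fin 5)))
    (h : ∀ σ ∈ alternatingGroup (Fin 5), ∀ τ ∈ alternatingGroup (Fin 5), σ * τ * σ⁻¹ * τ⁻¹ ∈ S) :
    alternatingGroup (Fin 5) ≤ S := by
  have hs : IsSimpleGroup (alternatingGroup (Fin 5)) := alternatingGroup.isSimpleGroup_five
  have h1 : commutator (alternatingGroup (Fin 5)) = ⊤ := by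
    rcases hs.eq_bot_or_eq_top_of_normal (commutator (alternatingGroup (Fin 5))) inferInstance with h2 | h2
    · exfalso
      obtain ⟨σ, τ, hσ, hτ, hne⟩ := even_noncomm
      apply hne
      have h3 : ⁅(⟨σ, Perm.mem_alternatingGroup.2 hσ⟩ : alternatingGroup (Fin 5)),
          ⟨τ, Perm.mem_alternatingGroup.2 hτ⟩⁆ ∈ commutator (alternatingGroup (Fin 5)) :=
        Subgroup.commutator_mem_commutator (Subgroup.mem_top _) (Subgroup.mem_top _)
      rw [h2, Subgroup.mem_bot, commutatorElement_eq_one_iff_mul_comm] at h3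
      exact congrArg Subtype.val h3
    · exact h2
  intro σ hσ
  have h4 : (⟨σ, hσ⟩ : alternatingGroup (Fin 5)) ∈ commutator (alternatingGroup (Fin 5)) := by
    rw [h1]; exact Subgroup.mem_top _
  have h5 : commutator (alternatingGroup (Fin 5)) ≤ S.subgroupOf (alternatingGroup (Fin 5)) := by
    rw [commutator_def, Subgroup.commutator_le]
    intro a _ b _
    rw [Subgroup.mem_subgroupOf]
    exact h a.1 a.2 b.1 b.2
  exact h5 h4

end perms

section lamps

variable {X : Type}

/-- lamp states -/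
inductive LS (X : Type) : Type
  | C (x : X) (α : Perm (Fin 5)) : LS X
  | R (α : Perm (Fin 5)) : LS X
  | O : LS X

/-- outputs of the lamp states -/
def outL : LS X → Perm (X × Fin 5)
  | .C _ _ => 1
  | .R α => Equiv.prodCongr (Equiv.refl X) α
  | .O => 1

open Classical in
/-- transitions of the lamp states -/
noncomputable def nextL (D : X → Prop) : LS X → X × Fin 5 → LS X
  | .C x α, z => if z.2 = 0 ∧ D z.1 then .C x α else if z = (x, 1) then .R α else .O
  | .R _, _ => .O
  | .O, _ => .O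

/-- rooted permutations of the second coordinate -/
noncomputable def lr (D : X → Prop) (α : Perm (Fin 5)) : Portrait (X × Fin 5) := por outL (nextL D) (.R α)
/-- directed lamps -/
noncomputable def lc (D : X → Prop) (x : X) (α : Perm (Fin 5)) : Portrait (X × Fin 5) :=
  por outL (nextL D) (.C x α)

variable (D : X → Prop)

theorem lo_eq : por outL (nextL D) .O = 1 := by
  refine ext_bisim (fun a b => a = por outL (nextL D) .O ∧ b = 1) ?_ ?_ ⟨rfl, rfl⟩
  · rintro _ _ ⟨rfl, rfl⟩; rfl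
  · rintro _ _ ⟨rfl, rfl⟩ x
    exact ⟨sec_por _ _ _ _, rfl⟩

theorem rt_lr (α : Perm (Fin 5)) (z : X × Fin 5) : rt (lr D α) z = (z.1, α z.2) := rfl
theorem sec_lr (α : Perm (Fin 5)) (z : X × Fin 5) : sec (lr D α) z = 1 := by
  rw [← lo_eq D]; exact sec_por _ _ _ _
theorem rt_lc (x : X) (α : Perm (Fin 5)) : rt (lc D x α) = 1 := rfl
open Classical in
theorem sec_lc (x : X) (α : Perm (Fin 5)) (z : X × Fin 5) : sec (lc D x α) z =
    if z.2 = 0 ∧ D z.1 then lc D x α else if z = (x, 1) then lr D α else 1 := by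
  have h := sec_por outL (nextL D) (.C x α) z
  rw [nextL] at h
  unfold lc
  rw [h]
  split_ifs
  · rfl
  · rfl
  · exact lo_eq D

theorem lr_mul (α β : Perm (Fin 5)) : lr D (α * β) = lr D α * lr D β := by
  apply ext_rt_sec
  · rfl
  · intro z
    rw [sec_mul, sec_lr, sec_lr, sec_lr, one_mul]

theorem lr_one : lr D (1 : Perm (Fin 5)) = 1 := by
  apply ext_rt_sec
  · ext1 z; rfl
  · intro z
    rw [sec_lr, sec_one]

theorem lr_inv (α : Perm (Fin 5)) : lr D α⁻¹ = (lr D α)⁻¹ := by
  rw [eq_inv_iff_mul_eq_one, ← lr_mul, inv_mul_cancel, lr_one]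

end lamps

section insertion

variable {Z : Type}

open Classical in
/-- Insertion of a portrait at a letter. -/
noncomputable def nsr (x : Z) : Portrait Z →* Portrait Z where
  toFun h := glue 1 (fun y => if y = x then h else 1)
  map_one' := by
    apply ext_rt_sec
    · rfl
    · intro y
      rw [sec_glue, sec_one]
      split_ifs <;> rfl
  map_mul' g h := by
    apply ext_rt_sec
    · rfl
    · intro y
      rw [sec_mul, rt_glue, sec_glue, sec_glue, sec_glue, Perm.one_apply]
      split_ifs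
      · rfl
      · rw [one_mul]

theorem rt_nsr (x : Z) (h : Portrait Z) : rt (nsr x h) = 1 := rfl
open Classical in
theorem sec_nsr (x : Z) (h : Portrait Z) (y : Z) : sec (nsr x h) y = if y = x then h else 1 := by
  show sec (glue 1 (fun y => if y = x then h else 1)) y = _
  rw [sec_glue]

theorem conj_nsr (g : Portrait Z) (x : Z) (h : Portrait Z) :
    g * nsr x h * g⁻¹ = nsr (rt g x) (sec g x * h * (sec g x)⁻¹) := by
  rw [mul_inv_eq_iff_eq_mul]
  apply ext_rt_sec
  · rw [rt_mul', rt_mul', rt_nsr, rt_nsr, one_mul, mul_one]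
  · intro y
    rw [sec_mul, sec_mul, rt_nsr, Perm.one_apply, sec_nsr, sec_nsr]
    by_cases hy : y = x
    · subst hy
      rw [if_pos rfl, if_pos rfl]; group
    · rw [if_neg hy, if_neg (fun h => hy ((rt g).injective h)), one_mul, mul_one]

theorem nsr_comm {x y : Z} (hxy : x ≠ y) (g h : Portrait Z) : Commute (nsr x g) (nsr y h) := by
  apply ext_rt_sec
  · rfl
  · intro z
    rw [sec_mul, sec_mul, rt_nsr, rt_nsr, Perm.one_apply, sec_nsr, sec_nsr]
    by_cases h1 : z = x
    · subst h1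
      rw [if_pos rfl, if_neg hxy, mul_one, one_mul]
    · rw [if_neg h1, mul_one, one_mul]

theorem comm_calc {G : Type} [Group G] {a b c d : G} (h1 : Commute b c) (h2 : Commute b d)
    (h3 : Commute d a) : a * b * (c * d) * (a * b)⁻¹ * (c * d)⁻¹ = a * c * a⁻¹ * c⁻¹ := by
  have e1 : a * b * (c * d) = a * c * d * b := by
    calc a * b * (c * d) = a * (b * c) * d := by group
      _ = a * (c * b) * d := by rw [h1.eq]
      _ = a * c * (b * d) := by group
      _ = a * c * (d * b) := by rw [h2.eq]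
      _ = a * c * d * b := by group
  have e2 : d * a⁻¹ = a⁻¹ * d := (h3.inv_right).eq
  calc a * b * (c * d) * (a * b)⁻¹ * (c * d)⁻¹ = a * c * d * b * (a * b)⁻¹ * (c * d)⁻¹ := by rw [e1]
    _ = a * c * (d * a⁻¹) * (d⁻¹ * c⁻¹) := by group
    _ = a * c * (a⁻¹ * d) * (d⁻¹ * c⁻¹) := by rw [e2]
    _ = a * c * a⁻¹ * c⁻¹ := by group

end insertion

section main

variable {X : Type} (D : X → Prop)

/-- rooted lamp elements -/
def lrSet : Set (Portrait (X × Fin 5)) := {g | ∃ α ∈ alternatingGroup (Fin 5), g = lr D α}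
/-- directed lamp elements -/
def lcSet : Set (Portrait (X × Fin 5)) := {g | ∃ x, ∃ α ∈ alternatingGroup (Fin 5), g = lc D x α}

/-- Normal closure of the rooted elements. -/
noncomputable def NN (K : Subgroup (Portrait (X × Fin 5))) : Subgroup (Portrait (X × Fin 5)) :=
  Subgroup.closure {g | ∃ k ∈ K, ∃ α ∈ alternatingGroup (Fin 5), g = k * lr D α * k⁻¹}

theorem NN_conj {K : Subgroup (Portrait (X × Fin 5))} {k g : Portrait (X × Fin 5)} (hk : k ∈ K)
    (hg : g ∈ NN D K) : k * g * k⁻¹ ∈ NN D K := by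
  refine Subgroup.closure_induction (p := fun g _ => k * g * k⁻¹ ∈ NN D K) ?_ ?_ ?_ ?_ hg
  · rintro _ ⟨m, hm, α, hα, rfl⟩
    refine Subgroup.subset_closure ⟨k * m, mul_mem hk hm, α, hα, ?_⟩
    group
  · rw [mul_one, mul_inv_cancel]; exact one_mem _
  · intro a b _ _ ha hb
    have : k * (a * b) * k⁻¹ = (k * a * k⁻¹) * (k * b * k⁻¹) := by group
    rw [this]; exact mul_mem ha hb
  · intro a _ ha
    have : k * a⁻¹ * k⁻¹ = (k * a * k⁻¹)⁻¹ := by group
    rw [this]; exact inv_mem ha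

theorem lr_mem_NN (K : Subgroup (Portrait (X × Fin 5))) {α : Perm (Fin 5)}
    (hα : α ∈ alternatingGroup (Fin 5)) : lr D α ∈ NN D K :=
  Subgroup.subset_closure ⟨1, one_mem _, α, hα, by group⟩

theorem NN_le {K : Subgroup (Portrait (X × Fin 5))} (hK : lrSet D ⊆ K) : NN D K ≤ K := by
  unfold NN
  rw [Subgroup.closure_le]
  rintro _ ⟨k, hk, α, hα, rfl⟩
  exact mul_mem (mul_mem hk (hK ⟨α, hα, rfl⟩)) (inv_mem hk)

/-- the basic commutator -/
theorem comm_eq (x : X) (α η : Perm (Fin 5)) (μ : Fin 5) (h0 : η 0 = 0) (h1 : η 1 = μ) (hμ0 : μ ≠ 0)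
    (hμ1 : μ ≠ 1) : lc D x α * (lr D η * (lc D x α)⁻¹ * (lr D η)⁻¹) =
      nsr (x, 1) (lr D α) * nsr (x, μ) (lr D α)⁻¹ := by
  classical
  apply ext_rt_sec
  · rw [rt_mul', rt_mul', rt_mul', rt_mul', rt_inv, rt_inv, rt_lc, rt_nsr, rt_nsr]
    group
  · rintro ⟨y, k⟩
    have hs1 : sec (lr D η)⁻¹ (y, k) = 1 := by rw [← lr_inv, sec_lr]
    have hr1 : rt (lr D η)⁻¹ (y, k) = (y, η⁻¹ k) := by rw [← lr_inv, rt_lr]
    have hs2 : sec (lc D x α)⁻¹ (y, η⁻¹ k) = (sec (lc D x α) (y, η⁻¹ k))⁻¹ := by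
      rw [sec_inv, rt_lc, inv_one, Perm.one_apply]
    have hr2 : rt (lr D η * (lc D x α)⁻¹ * (lr D η)⁻¹) (y, k) = (y, k) := by
      rw [rt_mul, rt_mul, hr1, rt_inv, rt_lc, inv_one, Perm.one_apply, rt_lr]
      simp
    rw [sec_mul, hr2, sec_mul, hs1, mul_one, hr1, sec_mul, sec_lr, one_mul, hs2, sec_mul, rt_nsr,
      Perm.one_apply, sec_nsr, sec_nsr, sec_lc, sec_lc]
    simp only [Prod.mk.injEq]
    have k0 : η⁻¹ k = 0 ↔ k = 0 := by
      rw [Perm.inv_eq_iff_eq, h0]
    have k1 : η⁻¹ k = 1 ↔ k = μ := by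
      rw [Perm.inv_eq_iff_eq, h1]
    simp only [k0, k1]
    by_cases hk0 : k = 0
    · subst hk0
      have e1 : ¬ (0 : Fin 5) = 1 := by decide
      simp only [true_and, e1, and_false, if_false, Ne.symm hμ0]
      by_cases hD : D y <;> simp [hD]
    · by_cases hk1 : k = 1
      · subst hk1
        have e1 : ¬ (1 : Fin 5) = μ := Ne.symm hμ1
        simp only [hk0, false_and, if_false, e1, and_false, and_true, inv_one, mul_one]
      · simp only [hk0, false_and, if_false, hk1, and_false, one_mul]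
        by_cases hkμ : k = μ
        · simp only [hkμ, and_true]
          split_ifs <;> simp
        · simp [hkμ]

/-- rooted elements at all letters -/
theorem nsr_lr_mem {K : Subgroup (Portrait (X × Fin 5))} (h1 : lrSet D ⊆ K) (h2 : lcSet D ⊆ K)
    (z : X × Fin 5) {β : Perm (Fin 5)} (hβ : β ∈ alternatingGroup (Fin 5)) :
    nsr z (lr D β) ∈ NN D K := by
  obtain ⟨x, k⟩ := z
  have step : ∀ α ∈ alternatingGroup (Fin 5), ∀ η : Perm (Fin 5), Perm.sign η = 1 → η 0 = 0 →
      η 1 ≠ 0 → η 1 ≠ 1 → nsr (x, 1) (lr D α) * nsr (x, η 1) (lr D α)⁻¹ ∈ NN D K := by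
    intro α hα η hη h0 hμ0 hμ1
    rw [← comm_eq D x α η (η 1) h0 rfl hμ0 hμ1]
    have hc : lc D x α ∈ K := h2 ⟨x, α, hα, rfl⟩
    have hη' : η ∈ alternatingGroup (Fin 5) := Perm.mem_alternatingGroup.2 hη
    have e : lc D x α * (lr D η * (lc D x α)⁻¹ * (lr D η)⁻¹) =
        (lc D x α * lr D η * (lc D x α)⁻¹) * (lr D η)⁻¹ := by group
    rw [e]
    exact mul_mem (NN_conj D hc (lr_mem_NN D K hη')) (inv_mem (lr_mem_NN D K hη'))
  obtain ⟨⟨η2, s2, a2, b2⟩, η3, s3, a3, b3⟩ := even_fix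
  -- all commutators at the letter (x,1)
  have hcomm : ∀ σ ∈ alternatingGroup (Fin 5), ∀ τ ∈ alternatingGroup (Fin 5),
      nsr (x, 1) (lr D (σ * τ * σ⁻¹ * τ⁻¹)) ∈ NN D K := by
    intro σ hσ τ hτ
    have g1 := step σ hσ η2 s2 a2 (by rw [b2]; decide) (by rw [b2]; decide)
    have g2 := step τ hτ η3 s3 a3 (by rw [b3]; decide) (by rw [b3]; decide)
    rw [b2] at g1
    rw [b3] at g2
    have e := comm_calc (a := nsr (x, (1 : Fin 5)) (lr D σ)) (b := nsr (x, (2 : Fin 5)) (lr D σ)⁻¹)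
      (c := nsr (x, (1 : Fin 5)) (lr D τ)) (d := nsr (x, (3 : Fin 5)) (lr D τ)⁻¹)
      (nsr_comm (fun h => absurd (show (2 : Fin 5) = 1 from congrArg Prod.snd h) (by decide)) _ _)
      (nsr_comm (fun h => absurd (show (2 : Fin 5) = 3 from congrArg Prod.snd h) (by decide)) _ _)
      (nsr_comm (fun h => absurd (show (3 : Fin 5) = 1 from congrArg Prod.snd h) (by decide)) _ _)
    have e2 : nsr (x, (1 : Fin 5)) (lr D (σ * τ * σ⁻¹ * τ⁻¹)) =
        nsr (x, (1 : Fin 5)) (lr D σ) * nsr (x, (1 : Fin 5)) (lr D τ) *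
          (nsr (x, (1 : Fin 5)) (lr D σ))⁻¹ * (nsr (x, (1 : Fin 5)) (lr D τ))⁻¹ := by
      rw [lr_mul, lr_mul, lr_mul, lr_inv, lr_inv, map_mul, map_mul, map_mul, map_inv, map_inv]
    rw [e2, ← e]
    exact mul_mem (mul_mem (mul_mem g1 g2) (inv_mem g1)) (inv_mem g2)
  -- all even permutations at (x,1)
  have hall : ∀ β ∈ alternatingGroup (Fin 5), nsr (x, (1 : Fin 5)) (lr D β) ∈ NN D K := by
    let S : Subgroup (Perm (Fin 5)) :=
      { carrier := {β | nsr (x, (1 : Fin 5)) (lr D β) ∈ NN D K}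
        mul_mem' := by
          intro a b ha hb
          show nsr (x, (1 : Fin 5)) (lr D (a * b)) ∈ NN D K
          rw [lr_mul, map_mul]
          exact mul_mem ha hb
        one_mem' := by
          show nsr (x, (1 : Fin 5)) (lr D 1) ∈ NN D K
          rw [lr_one, map_one]
          exact one_mem _
        inv_mem' := by
          intro a ha
          show nsr (x, (1 : Fin 5)) (lr D a⁻¹) ∈ NN D K
          rw [lr_inv, map_inv]
          exact inv_mem ha }
    have := all_even S hcomm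
    exact fun β hβ => this hβ
  -- move the second coordinate
  obtain ⟨_, η, hη, hη1⟩ := even_move k
  have hη' : η ∈ alternatingGroup (Fin 5) := Perm.mem_alternatingGroup.2 hη
  have h3 := NN_conj D (h1 ⟨η, hη', rfl⟩) (hall β hβ)
  rw [conj_nsr, rt_lr, sec_lr, one_mul, inv_one, mul_one] at h3
  simp only at h3
  rw [hη1] at h3
  exact h3

/-- the group of a pair with lamps -/
noncomputable def GG (v a : Portrait X) : Subgroup (Portrait (X × Fin 5)) :=
  Subgroup.closure ({lift X (Fin 5) v, lift X (Fin 5) a} ∪ lcSet D ∪ lrSet D)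

theorem lift_mem_GG {v a g : Portrait X} (hg : g ∈ Subgroup.closure {v, a}) :
    lift X (Fin 5) g ∈ GG D v a := by
  have : Subgroup.closure {v, a} ≤ (GG D v a).comap (lift X (Fin 5)) := by
    rw [Subgroup.closure_le]
    rintro g (rfl | rfl)
    · exact Subgroup.subset_closure (by simp)
    · exact Subgroup.subset_closure (by simp)
  exact this hg

theorem mv_lift {v a : Portrait X} {x y : X} {s : Portrait X} (h : Mv (Subgroup.closure {v, a}) x s y)
    (k : Fin 5) : Mv (GG D v a) (x, k) (lift X (Fin 5) s) (y, k) := by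
  obtain ⟨g, hg, rfl, rfl⟩ := h
  refine ⟨lift X (Fin 5) g, lift_mem_GG D hg, rfl, ?_⟩
  rw [sec_lift]

theorem lr_sub_GG (v a : Portrait X) : lrSet D ⊆ GG D v a := fun g hg =>
  Subgroup.subset_closure (Or.inr hg)
theorem lc_sub_GG (v a : Portrait X) : lcSet D ⊆ GG D v a := fun g hg =>
  Subgroup.subset_closure (Or.inl (Or.inr hg))

/-- a rooted element at a word -/
noncomputable def dl (α : Perm (Fin 5)) : List (X × Fin 5) → Portrait (X × Fin 5)
  | [] => lr D α
  | z :: w => nsr z (dl α w)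

theorem lift_conj_dl (α : Perm (Fin 5)) (w : List (X × Fin 5)) (s : Portrait X) :
    lift X (Fin 5) s * dl D α w * (lift X (Fin 5) s)⁻¹ = dl D α (actL (lift X (Fin 5) s) w) := by
  induction w generalizing s with
  | nil =>
    rw [actL_nil, dl, mul_inv_eq_iff_eq_mul]
    apply ext_rt_sec
    · ext1 z
      rw [rt_mul, rt_mul, rt_lr, rt_lr, rt_lift]
      rfl
    · intro z
      rw [sec_mul, sec_mul, sec_lr, sec_lr, sec_lift, sec_lift, rt_lr, mul_one, one_mul]
  | cons z w ih =>
    rw [dl, conj_nsr, sec_lift, ih, actL_cons, dl, sec_lift]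

theorem dl_mem (LP : Portrait X → Portrait X → Prop)
    (hstep : ∀ v a, LP v a → ∀ x, ∃ xD v' a' s, D xD ∧ LP v' a' ∧
      Mv (Subgroup.closure {v, a}) x s xD ∧ Mv (Subgroup.closure {v, a}) xD v' xD ∧
      Mv (Subgroup.closure {v, a}) xD a' xD) (n : ℕ) :
    ∀ v a, LP v a → ∀ w : List (X × Fin 5), w.length = n → ∀ α ∈ alternatingGroup (Fin 5),
      dl D α w ∈ NN D (GG D v a) := by
  induction n with
  | zero =>
    intro v a _ w hw α hα
    rw [List.length_eq_zero_iff.1 hw]
    exact lr_mem_NN D _ hα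
  | succ n ih =>
    intro v a hva w hw α hα
    cases w with
    | nil => simp at hw
    | cons z w =>
      obtain ⟨x, k⟩ := z
      have hw' : w.length = n := by simpa using hw
      obtain ⟨xD, v', a', s, hD, hLP, hs, hv', ha'⟩ := hstep v a hva x
      have hlr := lr_sub_GG D v a
      have hlc := lc_sub_GG D v a
      have hNle : NN D (GG D v a) ≤ GG D v a := NN_le D hlr
      -- elements fixing (xD, k) with prescribed sections
      have hmv : ∀ m ∈ GG D v' a', Mv (GG D v a) (xD, k) m (xD, k) := by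
        intro m hm
        refine Subgroup.closure_induction (p := fun m _ => Mv (GG D v a) (xD, k) m (xD, k))
          ?_ ?_ ?_ ?_ hm
        · rintro g ((hg | ⟨y, β, hβ, rfl⟩) | ⟨β, hβ, rfl⟩)
          · rcases hg with rfl | rfl
            · exact mv_lift D hv' k
            · exact mv_lift D ha' k
          · obtain ⟨⟨η, hη, hη0⟩, _⟩ := even_move k
            have hη' : η ∈ alternatingGroup (Fin 5) := Perm.mem_alternatingGroup.2 hη
            have m1 : Mv (GG D v a) (xD, 0) 1 (xD, k) :=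
              ⟨lr D η, hlr ⟨η, hη', rfl⟩, by rw [rt_lr]; simp only; rw [hη0], sec_lr D η _⟩
            have m2 : Mv (GG D v a) (xD, 0) (lc D y β) (xD, 0) := by
              refine ⟨lc D y β, hlc ⟨y, β, hβ, rfl⟩, by rw [rt_lc]; rfl, ?_⟩
              classical
              rw [sec_lc, if_pos ⟨rfl, hD⟩]
            have := (m1.symm.trans m2).trans m1
            simpa using this
          · refine ⟨nsr (xD, k) (lr D β), hNle (nsr_lr_mem D hlr hlc _ hβ), by rw [rt_nsr]; rfl, ?_⟩
            classical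
            rw [sec_nsr, if_pos rfl]
        · exact Mv.refl _ _
        · intro g h _ _ hg hh
          exact hh.trans hg
        · intro g _ hg
          exact hg.symm
      -- the rigid part
      have hR : NN D (GG D v' a') ≤ (NN D (GG D v a)).comap (nsr (xD, k)) := by
        unfold NN
        rw [Subgroup.closure_le]
        rintro _ ⟨m, hm, β, hβ, rfl⟩
        obtain ⟨g, hg, hg1, hg2⟩ := hmv m hm
        show nsr (xD, k) (m * lr D β * m⁻¹) ∈ NN D (GG D v a)
        have h3 := NN_conj D hg (nsr_lr_mem D hlr hlc (xD, k) hβ)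
        rw [conj_nsr, hg1, hg2] at h3
        exact h3
      obtain ⟨g, hg, hg1, hg2⟩ := mv_lift D hs k
      have h4 := ih v' a' hLP (actL (lift X (Fin 5) s) w) (by rw [length_actL, hw']) α hα
      have h5 : nsr (xD, k) (dl D α (actL (lift X (Fin 5) s) w)) ∈ NN D (GG D v a) := hR h4
      have h6 := NN_conj D (inv_mem hg) h5
      rw [← lift_conj_dl, ← hg2, ← hg1, ← conj_nsr] at h6
      have h7 : g⁻¹ * (g * nsr (x, k) (dl D α w) * g⁻¹) * g⁻¹⁻¹ = nsr (x, k) (dl D α w) := by group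
      rw [h7] at h6
      exact h6

end main

end Pool.Agent.Helper501.Hdc
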