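import Pool.Agent.Helper501.Hdc.Mech

namespace Pool.Agent.Helper501.Hdc

open Equiv Pool.Agent.Helper501.Haus

section moves

variable {X : Type}

/-- `H` has an element moving the letter `x` to `y` with section `s`. -/
def Mv (H : Subgroup (Portrait X)) (x : X) (s : Portrait X) (y : X) : Prop :=
  ∃ g ∈ H, rt g x = y ∧ sec g x = s

theorem Mv.refl (H : Subgroup (Portrait X)) (x : X) : Mv H x 1 x := ⟨1, one_mem _, rfl, rfl⟩

theorem Mv.trans {H : Subgroup (Portrait X)} {x y z : X} {s t : Portrait X} (h1 : Mv H x s y)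
    (h2 : Mv H y t z) : Mv H x (t * s) z := by
  obtain ⟨g, hg, rfl, rfl⟩ := h1
  obtain ⟨k, hk, rfl, rfl⟩ := h2
  exact ⟨k * g, mul_mem hk hg, rt_mul _ _ _, sec_mul _ _ _⟩

theorem Mv.symm {H : Subgroup (Portrait X)} {x y : X} {s : Portrait X} (h1 : Mv H x s y) :
    Mv H y s⁻¹ x := by
  obtain ⟨g, hg, rfl, rfl⟩ := h1
  refine ⟨g⁻¹, inv_mem hg, ?_, ?_⟩
  · rw [rt_inv]; exact (rt g).symm_apply_apply x
  · rw [sec_inv]; congr 2; exact (rt g).symm_apply_apply x

theorem Mv.of {H : Subgroup (Portrait X)} {g : Portrait X} (hg : g ∈ H) (x : X) {s : Portrait X}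
    {y : X} (h1 : rt g x = y) (h2 : sec g x = s) : Mv H x s y := ⟨g, hg, h1, h2⟩

end moves

namespace Eng

variable {J : Type} (E : Eng J)

/-- conjugates of the toggles -/
noncomputable def A (o : Option E.Q) (n : J → ℤ) : Portrait E.X := E.T (-n) * E.U o * E.T n

theorem A_sq (o : Option E.Q) (n : J → ℤ) : E.A o n * E.A o n = 1 := by
  have h := E.U_sq o
  calc E.A o n * E.A o n = (E.T n)⁻¹ * (E.U o * E.U o) * E.T n := by
        unfold A; rw [T_neg]; group
    _ = 1 := by rw [h]; group

theorem A_zero (o : Option E.Q) : E.A o 0 = E.U o := by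
  unfold A; rw [neg_zero, T_zero, one_mul, mul_one]

theorem rt_A_inl (o : Option E.Q) (n : J → ℤ) (i : E.I) (c : Fin (2 * E.l + 1)) (r : E.RV) :
    rt (E.A o n) (.inl (i, c, r)) = .inl (i, c.rev, r) := by
  unfold A
  rw [rt_mul, rt_mul, rt_T_inl, rt_U_inl, rt_T_inl, rots_neg]

theorem rt_A_inr (o : Option E.Q) (n : J → ℤ) (y : Fin 3) :
    rt (E.A o n) (.inr y) = .inr ((if o.isSome then Equiv.swap 0 1 else 1 : Perm (Fin 3)) y) := by
  unfold A
  rw [rt_mul, rt_mul, rt_T_inr, rt_U_inr, rt_T_inr]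

theorem sec_A_inr (o : Option E.Q) (n : J → ℤ) (y : Fin 3) :
    sec (E.A o n) (.inr y) = sec (E.U o) (.inr y) := by
  unfold A
  rw [sec_mul, sec_mul, rt_T_inr, rt_U_inr, sec_T_inr, sec_T_inr, T_zero, one_mul, mul_one]

/-- `rho` times a vector -/
def rv (i : E.I) (c : Fin (2 * E.l + 1)) (k : J → ℤ) : J → ℤ := fun j => E.rho i c j * k j

theorem rv_big (i : E.I) (c : Fin (2 * E.l + 1)) (k : J → ℤ) (hc : E.l ≤ c) : E.rv i c k = 0 := by
  funext j
  have := E.ha i j
  simp only [rv, rho]
  rw [if_neg (by omega)]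
  simp

theorem sec_A_ne (o : Option E.Q) (n : J → ℤ) (i : E.I) (c : Fin (2 * E.l + 1)) (r : E.RV)
    (hc : (c : ℕ) ≠ E.l) : sec (E.A o n) (.inl (i, c, r)) =
      E.T (- E.rv i c.rev (E.kap n r) + E.rv i c (E.kap n r)) := by
  unfold A
  rw [sec_mul, sec_mul, rt_T_inl, rt_U_inl, sec_T_inl, sec_T_inl, E.sec_U_inl _ _ _ _ hc, T_zero,
    mul_one, T_add, kap_neg]
  congr 2
  funext j
  simp [rv]

theorem sec_A_l (o : Option E.Q) (n : J → ℤ) (i : E.I) (c : Fin (2 * E.l + 1)) (r : E.RV)
    (hc : (c : ℕ) = E.l) : sec (E.A o n) (.inl (i, c, r)) = E.U (E.nx o i (E.rots n r)) := by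
  have h1 : (fun j => E.rho i c j * E.kap n r j) = 0 := E.rv_big i c _ (by omega)
  have h2 : (fun j => E.rho i c.rev j * E.kap (-n) (E.rots n r) j) = 0 :=
    E.rv_big i c.rev _ (by rw [Fin.val_rev]; omega)
  unfold A
  rw [sec_mul, sec_mul, rt_T_inl, rt_U_inl, sec_T_inl, sec_T_inl, E.sec_U_l _ _ _ _ hc, h1, h2,
    T_zero, mul_one, one_mul]

/-- accumulated shifts along the path -/
def PP (i : E.I) (k : J → ℤ) (c : ℕ) : J → ℤ :=
  fun j => (min c (E.b i j) : ℕ) + (min c (E.a i j) : ℕ) * k j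

theorem PP_zero (i : E.I) (k : J → ℤ) : E.PP i k 0 = 0 := by
  funext j; simp [PP]

theorem PP_succ (i : E.I) (k : J → ℤ) (c : Fin (2 * E.l + 1)) :
    E.PP i k (c + 1) = E.sh i c + E.rv i c k + E.PP i k c := by
  funext j
  simp only [PP, sh, rv, rho, Pi.add_apply]
  have h1 : ((min ((c : ℕ) + 1) (E.b i j) : ℕ) : ℤ) =
      (if (c : ℕ) < E.b i j then 1 else 0) + (min (c : ℕ) (E.b i j) : ℕ) := by
    split_ifs <;> omega
  have h2 : ((min ((c : ℕ) + 1) (E.a i j) : ℕ) : ℤ) =
      (if (c : ℕ) < E.a i j then 1 else 0) + (min (c : ℕ) (E.a i j) : ℕ) := by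
    split_ifs <;> omega
  rw [h1, h2]
  ring

/-- the dihedral group of a mode -/
noncomputable def HH (b : Bool) (o : Option E.Q) (n : J → ℤ) : Subgroup (Portrait E.X) :=
  Subgroup.closure {E.V b, E.A o n}

theorem V_mem (b : Bool) (o : Option E.Q) (n : J → ℤ) : E.V b ∈ E.HH b o n :=
  Subgroup.subset_closure (by simp)
theorem A_mem (b : Bool) (o : Option E.Q) (n : J → ℤ) : E.A o n ∈ E.HH b o n :=
  Subgroup.subset_closure (by simp)

/-- one step along the path -/
theorem path_step (b : Bool) (o : Option E.Q) (n : J → ℤ) (i : E.I) (r : E.RV)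
    (c d : Fin (2 * E.l + 1)) (hc : (c : ℕ) < E.l) (hd : (d : ℕ) = c + 1) :
    Mv (E.HH b o n) (.inl (i, c, r)) (E.T (E.sh i c + E.rv i c (E.kap n r))) (.inl (i, d, r)) := by
  have hrev : (c.rev : ℕ) = 2 * E.l - c := by rw [Fin.val_rev]; omega
  have h1 : Mv (E.HH b o n) (.inl (i, c, r)) (E.T (E.rv i c (E.kap n r))) (.inl (i, c.rev, r)) := by
    refine Mv.of (E.A_mem b o n) _ (E.rt_A_inl _ _ _ _ _) ?_
    rw [E.sec_A_ne _ _ _ _ _ (by omega), E.rv_big i c.rev _ (by omega), neg_zero, zero_add]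
  have h2 : Mv (E.HH b o n) (.inl (i, c.rev, r)) (E.T (E.sh i c)) (.inl (i, d, r)) := by
    refine Mv.of (E.V_mem b o n) _ ?_ ?_
    · rw [rt_V_inl]
      congr 3
      apply Fin.ext
      rw [E.neg_val _ (by omega)]
      omega
    · rw [E.sec_V_inl _ _ _ _ (by omega)]
      congr 1
      funext j
      simp only [sig]
      rw [if_neg (by omega)]
      congr 1
      omega
  rw [T_add]
  exact h1.trans h2

/-- the first half of the path -/
theorem path (b : Bool) (o : Option E.Q) (n : J → ℤ) (i : E.I) (r : E.RV) (k : ℕ) (hk : k ≤ E.l) :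
    Mv (E.HH b o n) (.inl (i, ⟨0, by omega⟩, r)) (E.T (E.PP i (E.kap n r) k))
      (.inl (i, ⟨k, by omega⟩, r)) := by
  induction k with
  | zero => rw [PP_zero, T_zero]; exact Mv.refl _ _
  | succ k ih =>
    have h1 := ih (by omega)
    have h2 := E.path_step b o n i r ⟨k, by omega⟩ ⟨k + 1, by omega⟩ (by simp only; omega) rfl
    have h3 := E.PP_succ i (E.kap n r) ⟨k, by omega⟩
    simp only at h3
    rw [h3, T_add]
    exact h1.trans h2

/-- the return of the toggle -/
theorem ret_A (b : Bool) (o : Option E.Q) (n : J → ℤ) (i : E.I) (r : E.RV) :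
    Mv (E.HH b o n) (.inl (i, ⟨0, by omega⟩, r))
      (E.A (E.nx o i (E.rots n r)) (E.PP i (E.kap n r) E.l)) (.inl (i, ⟨0, by omega⟩, r)) := by
  have h1 := E.path b o n i r E.l le_rfl
  have h2 : Mv (E.HH b o n) (.inl (i, ⟨E.l, by omega⟩, r)) (E.U (E.nx o i (E.rots n r)))
      (.inl (i, ⟨E.l, by omega⟩, r)) := by
    refine Mv.of (E.A_mem b o n) _ ?_ (E.sec_A_l _ _ _ _ _ rfl)
    rw [rt_A_inl]
    congr 3
    apply Fin.ext
    rw [Fin.val_rev]
    simp only
    omega
  have h3 := (h1.trans h2).trans h1.symm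
  unfold A
  rw [T_neg, mul_assoc]
  exact h3

open Classical in
/-- the return of the reflection -/
theorem ret_V (b : Bool) (o : Option E.Q) (n : J → ℤ) (i : E.I) (r : E.RV) :
    Mv (E.HH b o n) (.inl (i, ⟨0, by omega⟩, r)) (E.V (b || decide (∃ j, (r j : ℕ) ≠ 0)))
      (.inl (i, ⟨0, by omega⟩, r)) := by
  refine Mv.of (E.V_mem b o n) _ ?_ (E.sec_V_zero _ _ _ _ rfl)
  rw [rt_V_inl]
  congr 3

/-- every letter of a block is moved to the beginning of the path -/
theorem reach (b : Bool) (o : Option E.Q) (n : J → ℤ) (i : E.I) (r : E.RV)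
    (c : Fin (2 * E.l + 1)) : ∃ s, Mv (E.HH b o n) (.inl (i, c, r)) s (.inl (i, ⟨0, by omega⟩, r)) := by
  have key : ∀ c : Fin (2 * E.l + 1), (c : ℕ) ≤ E.l →
      ∃ s, Mv (E.HH b o n) (.inl (i, c, r)) s (.inl (i, ⟨0, by omega⟩, r)) := by
    intro c hc
    exact ⟨_, (E.path b o n i r c hc).symm⟩
  by_cases hc : (c : ℕ) ≤ E.l
  · exact key c hc
  · obtain ⟨s, hs⟩ := key c.rev (by rw [Fin.val_rev]; omega)
    exact ⟨_, (Mv.of (E.A_mem b o n) _ (E.rt_A_inl _ _ _ _ _) rfl).trans hs⟩

/-- the zero vector of residues -/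
def z0 : E.RV := fun _ => ⟨0, E.hB⟩

/-- residues of the counters -/
def res (n : J → ℤ) : E.RV := E.rots n E.z0

/-- new counters -/
def nn (i : E.I) (n : J → ℤ) : J → ℤ := E.PP i (E.kap n E.z0) E.l

theorem nn_apply (i : E.I) (n : J → ℤ) (j : J) : E.nn i n j = E.b i j + E.a i j * (n j / E.B) := by
  simp only [nn, PP, kap, z0]
  rw [Nat.min_eq_right (E.hb _ _), Nat.min_eq_right (E.ha _ _)]
  simp

/-- the machine stops from the configuration -/
inductive Halts : Option E.Q → (J → ℤ) → Prop
  | stop (n : J → ℤ) : Halts none n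
  | step (q : E.Q) (n : J → ℤ) : Halts (E.nxt q (E.res n)) (E.nn (E.ins q (E.res n)) n) →
      Halts (some q) n

/-- live modes -/
def Live (b : Bool) (o : Option E.Q) (n : J → ℤ) : Prop := b = true ∨ ¬ E.Halts o n

open Classical in
theorem live_block (hR : ∀ m, ¬ E.Halts (some E.rs) m) {b : Bool} {o : Option E.Q} {n : J → ℤ}
    (h : E.Live b o n) (i : E.I) (r : E.RV) :
    E.Live (b || decide (∃ j, (r j : ℕ) ≠ 0)) (E.nx o i (E.rots n r)) (E.PP i (E.kap n r) E.l) := by
  rcases h with rfl | h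
  · left; rfl
  by_cases hr : ∃ j, (r j : ℕ) ≠ 0
  · left; simp [hr]
  right
  have hr0 : r = E.z0 := by
    push Not at hr
    funext j
    exact Fin.ext (hr j)
  subst hr0
  cases o with
  | none => exact absurd (Halts.stop n) h
  | some q =>
    intro h2
    simp only [nx] at h2
    split_ifs at h2 with hi
    · apply h
      subst hi
      exact Halts.step q n h2
    · exact hR _ h2

/-- the distinguished letters -/
def inD : E.X → Prop
  | .inl (_, c, _) => (c : ℕ) = 0
  | .inr y => y ≠ 1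

/-- live pairs -/
def LP (v a : Portrait E.X) : Prop := ∃ b o n, v = E.V b ∧ a = E.A o n ∧ E.Live b o n

theorem lp_rs (hR : ∀ m, ¬ E.Halts (some E.rs) m) : E.LP (E.V false) (E.U (some E.rs)) :=
  ⟨false, some E.rs, 0, rfl, (E.A_zero _).symm, Or.inr (hR _)⟩

theorem sec_V0 (b : Bool) : sec (E.V b) (.inr 0) = E.V false := by
  rw [sec_V_inr]; cases b <;> simp

theorem step_live (hR : ∀ m, ¬ E.Halts (some E.rs) m) {v a : Portrait E.X} (h : E.LP v a) (x : E.X) :
    ∃ xD v' a' s, E.inD xD ∧ E.LP v' a' ∧ Mv (Subgroup.closure {v, a}) x s xD ∧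
      Mv (Subgroup.closure {v, a}) xD v' xD ∧ Mv (Subgroup.closure {v, a}) xD a' xD := by
  classical
  obtain ⟨b, o, n, rfl, rfl, hl⟩ := h
  change ∃ xD v' a' s, E.inD xD ∧ E.LP v' a' ∧ Mv (E.HH b o n) x s xD ∧
      Mv (E.HH b o n) xD v' xD ∧ Mv (E.HH b o n) xD a' xD
  rcases x with ⟨i, c, r⟩ | y
  · obtain ⟨s, hs⟩ := E.reach b o n i r c
    exact ⟨.inl (i, ⟨0, by omega⟩, r), _, _, s, by simp [inD],
      ⟨_, _, _, rfl, rfl, E.live_block hR hl i r⟩, hs, E.ret_V b o n i r, E.ret_A b o n i r⟩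
  · have hlp := E.lp_rs hR
    have hV := E.V_mem b o n
    have hA := E.A_mem b o n
    have v0 : Mv (E.HH b o n) (.inr 0) (E.V false) (.inr 0) := by
      refine Mv.of hV _ ?_ (E.sec_V0 b)
      rw [rt_V_inr]
      cases b <;> rfl
    have e1 : ∀ g ∈ E.HH b o n, ∀ y z : Fin 3, rt g (.inr y) = .inr z → sec g (.inr y) = E.T 0 →
        Mv (E.HH b o n) (.inr y) 1 (.inr z) := by
      intro g hg y z h1 h2
      exact Mv.of hg _ h1 (by rw [h2, T_zero])
    cases o with
    | some q =>
      -- the toggle swaps 0 and 1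
      have a01 : Mv (E.HH b (some q) n) (.inr 0) 1 (.inr 1) := by
        refine e1 _ hA 0 1 (by rw [rt_A_inr]; rfl) ?_
        rw [sec_A_inr, sec_U_some, if_neg (by decide)]
      have a10 : Mv (E.HH b (some q) n) (.inr 1) 1 (.inr 0) := by
        have := a01.symm
        rwa [inv_one] at this
      have a22 : Mv (E.HH b (some q) n) (.inr 2) (E.U (some E.rs)) (.inr 2) := by
        refine Mv.of hA _ (by rw [rt_A_inr]; rfl) ?_
        rw [sec_A_inr, sec_U_some, if_pos rfl]
      cases b with
      | false =>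
        have v11 : Mv (E.HH false (some q) n) (.inr 1) (E.U (some E.rs)) (.inr 1) := by
          refine Mv.of hV _ (by rw [rt_V_inr]; rfl) ?_
          rw [sec_V_inr]; simp
        have v22 : Mv (E.HH false (some q) n) (.inr 2) (E.V false) (.inr 2) := by
          refine Mv.of hV _ (by rw [rt_V_inr]; rfl) ?_
          rw [sec_V_inr]
          simp only [Bool.false_eq_true, if_false]
          rw [if_neg (by decide)]
        have u00 : Mv (E.HH false (some q) n) (.inr 0) (E.U (some E.rs)) (.inr 0) := by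
          have := (a01.trans v11).trans a10
          simpa using this
        fin_cases y
        · exact ⟨.inr 0, _, _, 1, by simp [inD], hlp, Mv.refl _ _, v0, u00⟩
        · exact ⟨.inr 0, _, _, 1, by simp [inD], hlp, a10, v0, u00⟩
        · exact ⟨.inr 2, _, _, 1, by simp [inD], hlp, Mv.refl _ _, v22, a22⟩
      | true =>
        have v12 : Mv (E.HH true (some q) n) (.inr 1) 1 (.inr 2) := by
          refine e1 _ hV 1 2 (by rw [rt_V_inr]; rfl) ?_
          rw [sec_V_inr]; simp
        have v21 : Mv (E.HH true (some q) n) (.inr 2) 1 (.inr 1) := by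
          have := v12.symm
          rwa [inv_one] at this
        have u00 : Mv (E.HH true (some q) n) (.inr 0) (E.U (some E.rs)) (.inr 0) := by
          have := ((((a01.trans v12).trans a22).trans v21).trans a10)
          simpa using this
        fin_cases y
        · exact ⟨.inr 0, _, _, 1, by simp [inD], hlp, Mv.refl _ _, v0, u00⟩
        · exact ⟨.inr 0, _, _, 1, by simp [inD], hlp, a10, v0, u00⟩
        · refine ⟨.inr 0, _, _, 1 * 1, by simp [inD], hlp, v21.trans a10, v0, u00⟩
    | none =>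
      rcases hl with rfl | hl
      · have v12 : Mv (E.HH true none n) (.inr 1) 1 (.inr 2) := by
          refine e1 _ hV 1 2 (by rw [rt_V_inr]; rfl) ?_
          rw [sec_V_inr]; simp
        have v21 : Mv (E.HH true none n) (.inr 2) 1 (.inr 1) := by
          have := v12.symm
          rwa [inv_one] at this
        have a00 : Mv (E.HH true none n) (.inr 0) (E.U (some E.rs)) (.inr 0) := by
          refine Mv.of hA _ (by rw [rt_A_inr]; rfl) ?_
          rw [sec_A_inr, sec_U_none, if_neg (by decide)]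
        have a11 : Mv (E.HH true none n) (.inr 1) (E.V false) (.inr 1) := by
          refine Mv.of hA _ (by rw [rt_A_inr]; rfl) ?_
          rw [sec_A_inr, sec_U_none, if_pos rfl]
        have a22 : Mv (E.HH true none n) (.inr 2) (E.U (some E.rs)) (.inr 2) := by
          refine Mv.of hA _ (by rw [rt_A_inr]; rfl) ?_
          rw [sec_A_inr, sec_U_none, if_neg (by decide)]
        have v22 : Mv (E.HH true none n) (.inr 2) (E.V false) (.inr 2) := by
          have := (v21.trans a11).trans v12
          simpa using this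
        fin_cases y
        · exact ⟨.inr 0, _, _, 1, by simp [inD], hlp, Mv.refl _ _, v0, a00⟩
        · exact ⟨.inr 2, _, _, 1, by simp [inD], hlp, v12, v22, a22⟩
        · exact ⟨.inr 2, _, _, 1, by simp [inD], hlp, Mv.refl _ _, v22, a22⟩
      · exact absurd (Halts.stop n) hl

/-! ### halting machines -/

/-- shifts at the positions of the cycle -/
def OO (i : E.I) (k : J → ℤ) (c : Fin (2 * E.l + 1)) : J → ℤ :=
  if (c : ℕ) ≤ E.l then E.PP i k c else E.PP i k (2 * E.l - c) + E.rv i c.rev k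

/-- The words of the doomed orbit. -/
inductive Sd : Option E.Q → (J → ℤ) → List E.X → Prop
  | stop (n : J → ℤ) : Sd none n [.inr 1]
  | step (q : E.Q) (n : J → ℤ) (c : Fin (2 * E.l + 1)) (w : List E.X) :
      Sd (E.nxt q (E.res n)) (E.nn (E.ins q (E.res n)) n) w →
      Sd (some q) n (.inl (E.ins q (E.res n), c, E.z0) ::
        actL (E.T (E.OO (E.ins q (E.res n)) (E.kap n E.z0) c)) w)

theorem exists_Sd {o : Option E.Q} {n : J → ℤ} (h : E.Halts o n) : ∃ w, E.Sd o n w := by
  induction h with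
  | stop n => exact ⟨_, .stop n⟩
  | step q n _ ih =>
    obtain ⟨w, hw⟩ := ih
    exact ⟨_, .step q n ⟨0, by omega⟩ w hw⟩

theorem Sd_notD {o : Option E.Q} {n : J → ℤ} {w : List E.X} (h : E.Sd o n w) :
    ∃ x ∈ w, ¬ E.inD x := by
  induction h with
  | stop n => exact ⟨.inr 1, by simp, by simp [inD]⟩
  | step q n c w _ ih =>
    by_cases hc : (c : ℕ) = 0
    · obtain ⟨x, hx, hx2⟩ := ih
      refine ⟨x, ?_, hx2⟩
      have h0 : E.OO (E.ins q (E.res n)) (E.kap n E.z0) c = 0 := by
        unfold OO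
        rw [if_pos (by omega), hc, PP_zero]
      rw [h0, T_zero, actL_one]
      exact List.mem_cons_of_mem _ hx
    · exact ⟨_, List.mem_cons_self, hc⟩

theorem Sd_V {o : Option E.Q} {n : J → ℤ} {w : List E.X} (h : E.Sd o n w) :
    E.Sd o n (actL (E.V false) w) := by
  induction h with
  | stop n =>
    rw [actL_cons, actL_nil, rt_V_inr]
    exact .stop n
  | step q n c w hw ih =>
    rw [actL_cons, rt_V_inl, ← actL_mul]
    by_cases hc : (c : ℕ) = 0
    · have h0 : E.OO (E.ins q (E.res n)) (E.kap n E.z0) c = 0 := by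
        unfold OO
        rw [if_pos (by omega), hc, PP_zero]
      have hn : E.neg c = c := by unfold neg; rw [dif_pos hc]
      rw [E.sec_V_zero _ _ _ _ hc, h0, T_zero, mul_one, hn]
      have h1 := Sd.step (E := E) q n c _ ih
      rw [h0, T_zero, actL_one] at h1
      convert h1 using 3
      simp [z0]
    · rw [E.sec_V_inl _ _ _ _ hc, ← T_add]
      have h1 := Sd.step (E := E) q n (E.neg c) _ hw
      convert h1 using 4
      have hcl := c.2
      have hnv := E.neg_val c hc
      by_cases hl : (c : ℕ) ≤ E.l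
      · obtain ⟨c', hc'⟩ : ∃ c' : Fin (2 * E.l + 1), (c : ℕ) = c' + 1 := ⟨⟨c - 1, by omega⟩, by simp only; omega⟩
        have hrev : (E.neg c).rev = c' := by
          apply Fin.ext; rw [Fin.val_rev, hnv]; omega
        have e1 : E.OO (E.ins q (E.res n)) (E.kap n E.z0) c = E.PP (E.ins q (E.res n)) (E.kap n E.z0) (c' + 1) := by
          unfold OO; rw [if_pos hl, hc']
        have e2 : E.OO (E.ins q (E.res n)) (E.kap n E.z0) (E.neg c) =
            E.PP (E.ins q (E.res n)) (E.kap n E.z0) c' + E.rv (E.ins q (E.res n)) c' (E.kap n E.z0) := by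
          unfold OO
          rw [if_neg (by omega), hrev]
          congr 2
          omega
        have e3 : E.sig (E.ins q (E.res n)) c = - E.sh (E.ins q (E.res n)) c' := by
          funext j
          simp only [sig, Pi.neg_apply]
          rw [if_pos hl]
          congr 2
          omega
        rw [e1, e2, e3, PP_succ]
        abel
      · obtain ⟨c', hc'⟩ : ∃ c' : Fin (2 * E.l + 1), (c' : ℕ) = 2 * E.l - c := ⟨⟨2 * E.l - c, by omega⟩, rfl⟩
        have hrev : c.rev = c' := by
          apply Fin.ext; rw [Fin.val_rev]; omega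
        have hneg : (E.neg c : ℕ) = c' + 1 := by omega
        have e1 : E.OO (E.ins q (E.res n)) (E.kap n E.z0) c =
            E.PP (E.ins q (E.res n)) (E.kap n E.z0) c' + E.rv (E.ins q (E.res n)) c' (E.kap n E.z0) := by
          unfold OO; rw [if_neg hl, hrev, hc']
        have e2 : E.OO (E.ins q (E.res n)) (E.kap n E.z0) (E.neg c) =
            E.PP (E.ins q (E.res n)) (E.kap n E.z0) (c' + 1) := by
          unfold OO
          rw [if_pos (by omega), hneg]
        have e3 : E.sig (E.ins q (E.res n)) c = E.sh (E.ins q (E.res n)) c' := by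
          funext j
          simp only [sig]
          rw [if_neg hl, hc']
        rw [e1, e2, e3, PP_succ]
        abel

theorem Sd_A {o : Option E.Q} {n : J → ℤ} {w : List E.X} (h : E.Sd o n w) :
    E.Sd o n (actL (E.A o n) w) := by
  induction h with
  | stop n =>
    rw [actL_cons, actL_nil, rt_A_inr]
    exact .stop n
  | step q n c w hw ih =>
    rw [actL_cons, rt_A_inl, ← actL_mul]
    have hcl := c.2
    have hrv : (c.rev : ℕ) = 2 * E.l - c := by rw [Fin.val_rev]; omega
    rcases lt_trichotomy (c : ℕ) E.l with hl | hl | hl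
    · rw [E.sec_A_ne _ _ _ _ _ (by omega), E.rv_big _ c.rev _ (by omega), neg_zero, zero_add, ← T_add]
      have h1 := Sd.step (E := E) q n c.rev _ hw
      convert h1 using 4
      unfold OO
      rw [if_pos (by omega), if_neg (by omega), Fin.rev_rev, add_comm]
      congr 2
      omega
    · have hcc : c.rev = c := by apply Fin.ext; omega
      have e1 : E.OO (E.ins q (E.res n)) (E.kap n E.z0) c = E.nn (E.ins q (E.res n)) n := by
        unfold OO nn; rw [if_pos (by omega), hl]
      have e2 : E.nx (some q) (E.ins q (E.res n)) (E.rots n E.z0) = E.nxt q (E.res n) := by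
        simp only [nx, res, if_true]
      have h1 := Sd.step (E := E) q n c _ ih
      rw [e1] at h1
      rw [E.sec_A_l _ _ _ _ _ hl, hcc, e2, e1]
      convert h1 using 2
      rw [← actL_mul]
      congr 1
      unfold A
      rw [T_neg]
      group
    · rw [E.sec_A_ne _ _ _ _ _ (by omega), E.rv_big _ c _ (by omega), add_zero, ← T_add]
      have h1 := Sd.step (E := E) q n c.rev _ hw
      convert h1 using 4
      unfold OO
      rw [if_neg (by omega), if_pos (by omega), hrv]
      abel

/-- the doomed words are closed under the dihedral group -/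
theorem Sd_closed {o : Option E.Q} {n : J → ℤ} {h : Portrait E.X} (hh : h ∈ E.HH false o n)
    {w : List E.X} (hw : E.Sd o n w) : E.Sd o n (actL h w) := by
  have key : ∀ h ∈ E.HH false o n, ∀ w, E.Sd o n w ↔ E.Sd o n (actL h w) := by
    intro h hh
    refine Subgroup.closure_induction (p := fun h _ => ∀ w, E.Sd o n w ↔ E.Sd o n (actL h w))
      ?_ ?_ ?_ ?_ hh
    · intro g hg w
      rcases hg with rfl | rfl
      · refine ⟨fun h => E.Sd_V h, fun h => ?_⟩
        have := E.Sd_V h
        rwa [← actL_mul, V_sq, actL_one] at this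
      · refine ⟨fun h => E.Sd_A h, fun h => ?_⟩
        have := E.Sd_A h
        rwa [← actL_mul, A_sq, actL_one] at this
    · intro w; rw [actL_one]
    · intro x y _ _ hx hy w
      rw [actL_mul]
      exact (hy w).trans (hx _)
    · intro x _ hx w
      have := hx (actL x⁻¹ w)
      rw [← actL_mul, mul_inv_cancel, actL_one] at this
      exact this.symm
  exact (key h hh w).1 hw

end Eng

end Pool.Agent.Helper501.Hdc
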