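import Pool.Agent.Helper501.Hdc.Live
import Pool.Agent.Helper501.Hdc.Source

namespace Pool.Agent.Helper501.Hdc

section machine

variable {Q : Type} (M : Sys Q Bool) (q0 : Q) (N : ℕ)

/-- instructions -/
inductive Ins (Q : Type) (B : ℕ) : Type
  | orig (q : Q) (r : Bool → Fin B) : Ins Q B
  | inc (r : Bool → Fin B) : Ins Q B
  | idn (r : Bool → Fin B) : Ins Q B
  | rst : Ins Q B

/-- rates of the instructions -/
def insA : Ins Q M.B → Bool → ℕ
  | .orig q r, j => M.a q r j
  | .inc _, _ => M.B
  | .idn _, _ => M.B
  | .rst, _ => 0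

/-- shifts of the instructions -/
def insB : Ins Q M.B → Bool → ℕ
  | .orig q r, j => M.b q r j
  | .inc r, j => r j + (if j then 1 else 0)
  | .idn r, j => r j
  | .rst, _ => 0

/-- The machine which loads the number `N` and then runs the given one. -/
@[reducible] def eng : Eng Bool where
  Q := Q ⊕ Option ℕ
  I := Ins Q M.B
  B := M.B
  hB := M.hB
  l := max M.l M.B
  hl := lt_max_of_lt_right M.hB
  a := insA M
  b := insB M
  ha i j := by
    cases i with
    | orig q r => exact (M.ha q r j).trans (le_max_left _ _)
    | inc r => exact le_max_right _ _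
    | idn r => exact le_max_right _ _
    | rst => exact Nat.zero_le _
  hb i j := by
    cases i with
    | orig q r => exact (M.hb q r j).trans (le_max_left _ _)
    | inc r =>
      have := (r j).2
      refine le_trans ?_ (le_max_right _ _)
      simp only [insB]
      split_ifs <;> omega
    | idn r => exact (r j).2.le.trans (le_max_right _ _)
    | rst => exact Nat.zero_le _
  ins q r := match q with
    | .inl q => .orig q r
    | .inr none => .rst
    | .inr (some k) => if k < N then .inc r else .idn r
  nxt q r := match q with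
    | .inl q => (M.nxt q r).map Sum.inl
    | .inr none => some (.inr (some 0))
    | .inr (some k) => if k < N then some (.inr (some (k + 1))) else some (.inl q0)
  rs := .inr none

theorem Eng.halts_some {J : Type} (E : Eng J) (q : E.Q) (n : J → ℤ) :
    E.Halts (some q) n ↔ E.Halts (E.nxt q (E.res n)) (E.nn (E.ins q (E.res n)) n) := by
  constructor
  · intro h
    cases h with
    | step _ _ h => exact h
  · exact Eng.Halts.step q n

theorem Eng.res_val {J : Type} (E : Eng J) (n : J → ℤ) (j : J) : ((E.res n j : ℕ) : ℤ) = n j % E.B := by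
  unfold Eng.res
  rw [Eng.rots_apply, Eng.red_val]
  simp [Eng.z0]

/-- counters during the loading -/
def cn (k : ℕ) : Bool → ℤ := fun j => if j then k else 0

theorem res_eng (n : Bool → ℕ) : (eng M q0 N).res (fun j => (n j : ℤ)) = M.res n := by
  funext j
  apply Fin.ext
  have h := (eng M q0 N).res_val (fun j => (n j : ℤ)) j
  have h2 : (((eng M q0 N).res (fun j => (n j : ℤ)) j : ℕ) : ℤ) = ((n j % M.B : ℕ) : ℤ) := by
    rw [h]; rfl
  exact_mod_cast h2

theorem nn_eng (q : Q) (n : Bool → ℕ) :
    (eng M q0 N).nn (.orig q (M.res n)) (fun j => (n j : ℤ)) = fun j => (M.nn q n j : ℤ) := by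
  funext j
  rw [Eng.nn_apply]
  show ((M.b q (M.res n) j : ℕ) : ℤ) + (M.a q (M.res n) j : ℕ) * ((n j : ℤ) / (M.B : ℕ)) = _
  unfold Sys.nn
  push_cast
  ring

theorem halts_orig (q : Q) (n : Bool → ℕ) :
    (eng M q0 N).Halts (some (.inl q)) (fun j => (n j : ℤ)) ↔ M.Halts (some q) n := by
  constructor
  · intro h
    generalize ho : (some (Sum.inl q) : Option (eng M q0 N).Q) = o at h
    generalize hm : (fun j => (n j : ℤ)) = m at h
    induction h generalizing q n with
    | stop => cases ho
    | step q' m h ih =>
      have hq : q' = .inl q := (Option.some.inj ho).symm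
      subst hq
      subst hm
      apply Sys.Halts.step
      have e1 : (eng M q0 N).nxt (.inl q) ((eng M q0 N).res (fun j => (n j : ℤ))) =
          (M.nxt q (M.res n)).map Sum.inl := by rw [res_eng]
      have e2 : (eng M q0 N).nn ((eng M q0 N).ins (.inl q) ((eng M q0 N).res (fun j => (n j : ℤ))))
          (fun j => (n j : ℤ)) = fun j => (M.nn q n j : ℤ) := by rw [res_eng]; exact nn_eng M q0 N q n
      cases hx : M.nxt q (M.res n) with
      | none => exact Sys.Halts.stop _
      | some q'' =>
        refine ih q'' (M.nn q n) ?_ e2.symm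
        rw [e1, hx]; rfl
  · intro h
    generalize ho : some q = o at h
    induction h generalizing q with
    | stop => cases ho
    | step q' n h ih =>
      obtain rfl : q = q' := Option.some.inj ho
      rw [Eng.halts_some]
      rw [res_eng]
      have e2 : (eng M q0 N).nn ((eng M q0 N).ins (.inl q) (M.res n)) (fun j => (n j : ℤ)) =
        fun j => (M.nn q n j : ℤ) := nn_eng M q0 N q n
      rw [e2]
      show (eng M q0 N).Halts ((M.nxt q (M.res n)).map Sum.inl) _
      cases hx : M.nxt q (M.res n) with
      | none => exact Eng.Halts.stop _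
      | some q'' => exact ih q'' hx.symm

theorem eng_rebuild (n : Bool → ℤ) (j : Bool) : (((eng M q0 N).res n j : ℕ) : ℤ) + (M.B : ℤ) * (n j / (M.B : ℤ)) = n j := by
  rw [Eng.res_val]
  exact Int.emod_add_mul_ediv (n j) (M.B : ℤ)

theorem halts_ld (k : ℕ) (hk : k ≤ N) :
    (eng M q0 N).Halts (some (.inr (some (N - k)))) (cn (N - k)) ↔ M.Halts (some q0) (Source.ini N) := by
  induction k with
  | zero =>
    rw [Eng.halts_some, Nat.sub_zero]
    have e1 : (eng M q0 N).nxt (.inr (some N)) ((eng M q0 N).res (cn N)) = some (.inl q0) := by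
      show (if N < N then _ else _) = _
      rw [if_neg (lt_irrefl _)]
    have e0 : (eng M q0 N).ins (.inr (some N)) ((eng M q0 N).res (cn N)) = .idn ((eng M q0 N).res (cn N)) := by
      show (if N < N then _ else _) = _
      rw [if_neg (lt_irrefl _)]
    have e2 : (eng M q0 N).nn ((eng M q0 N).ins (.inr (some N)) ((eng M q0 N).res (cn N))) (cn N) =
        fun j => (Source.ini N j : ℤ) := by
      rw [e0]
      funext j
      rw [Eng.nn_apply]
      have := eng_rebuild M q0 N (cn N) j
      refine Eq.trans this ?_
      cases j <;> simp [cn, Source.ini]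
    rw [e1, e2]
    exact halts_orig M q0 N q0 _
  | succ k ih =>
    rw [← ih (by omega), Eng.halts_some]
    have hlt : N - (k + 1) < N := by omega
    have hs : N - (k + 1) + 1 = N - k := by omega
    have e1 : (eng M q0 N).nxt (.inr (some (N - (k + 1)))) ((eng M q0 N).res (cn (N - (k + 1)))) =
        some (.inr (some (N - k))) := by
      show (if N - (k + 1) < N then some (Sum.inr (some (N - (k + 1) + 1))) else _) = _
      rw [if_pos hlt, hs]
    have e0 : (eng M q0 N).ins (.inr (some (N - (k + 1)))) ((eng M q0 N).res (cn (N - (k + 1)))) =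
        .inc ((eng M q0 N).res (cn (N - (k + 1)))) := by
      show (if N - (k + 1) < N then _ else _) = _
      rw [if_pos hlt]
    have e2 : (eng M q0 N).nn ((eng M q0 N).ins (.inr (some (N - (k + 1))))
        ((eng M q0 N).res (cn (N - (k + 1))))) (cn (N - (k + 1))) = cn (N - k) := by
      rw [e0]
      funext j
      rw [Eng.nn_apply]
      have := eng_rebuild M q0 N (cn (N - (k + 1))) j
      show (((((eng M q0 N).res (cn (N - (k + 1))) j : ℕ) + (if j then 1 else 0) : ℕ) : ℤ)) +
        (M.B : ℤ) * (cn (N - (k + 1)) j / (M.B : ℤ)) = _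
      push_cast
      have e3 : cn (N - k) j = cn (N - (k + 1)) j + (if j then 1 else 0) := by
        cases j
        · simp [cn]
        · simp only [cn, if_true]
          omega
      rw [e3]
      linarith
    rw [e1, e2]

theorem halts_rs (m : Bool → ℤ) : (eng M q0 N).Halts (some (eng M q0 N).rs) m ↔
    M.Halts (some q0) (Source.ini N) := by
  rw [← halts_ld M q0 N N le_rfl, Eng.halts_some, Nat.sub_self]
  have e2 : (eng M q0 N).nn ((eng M q0 N).ins (eng M q0 N).rs ((eng M q0 N).res m)) m = cn 0 := by
    funext j
    rw [Eng.nn_apply]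
    show ((0 : ℕ) : ℤ) + ((0 : ℕ) : ℤ) * _ = _
    simp [cn]
  rw [e2]

end machine

end Pool.Agent.Helper501.Hdc
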