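import Pool.Agent.Helper501.Hdc.Tab

namespace Pool.Agent.Helper501.Hdc

open Equiv Pool.Agent.Helper501.Haus Filter Topology

theorem encode_int (z : ℤ) : Encodable.encode z = Equiv.intEquivNat z := rfl

theorem toNat_primrec : Primrec Int.toNat := by
  have h : Primrec (fun z : ℤ => if Encodable.encode z % 2 = 0 then Encodable.encode z / 2 else 0) := by
    refine Primrec.ite (Primrec.eq.comp (Primrec.nat_mod.comp Primrec.encode (Primrec.const 2))
      (Primrec.const 0)) ?_ (Primrec.const 0)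
    exact Primrec.nat_div.comp Primrec.encode (Primrec.const 2)
  refine h.of_eq ?_
  intro z
  rw [encode_int]
  cases z with
  | ofNat n =>
    have : Equiv.intEquivNat (Int.ofNat n) = 2 * n := rfl
    rw [this]
    simp
  | negSucc n =>
    have : Equiv.intEquivNat (Int.negSucc n) = 2 * n + 1 := rfl
    rw [this, if_neg (by omega)]
    simp

/-- the decision -/
def dec (k : ℕ) (r : ℤ × ℕ) : Bool := decide (r.2 = 0) || decide (r.1.toNat * 2 ^ k ≤ r.2)

theorem dec_primrec (k : ℕ) : Primrec (dec k) := by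
  unfold dec
  refine Primrec.or.comp ?_ ?_
  · exact PrimrecPred.decide (Primrec.eq.comp Primrec.snd (Primrec.const 0))
  · exact PrimrecPred.decide (Primrec.nat_le.comp (Primrec.nat_mul.comp (toNat_primrec.comp Primrec.fst)
      (Primrec.const (2 ^ k))) Primrec.snd)

theorem dec_true (k : ℕ) (r : ℤ × ℕ) (h : (r.1 : ℝ) / (r.2 : ℝ) ≤ (1 / 2 : ℝ) ^ k) : dec k r = true := by
  unfold dec
  by_cases h0 : r.2 = 0
  · simp [h0]
  have hpos : (0 : ℝ) < r.2 := by
    have : 0 < r.2 := Nat.pos_of_ne_zero h0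
    exact_mod_cast this
  rw [div_le_iff₀ hpos, one_div, inv_pow] at h
  have hk : (0 : ℝ) < 2 ^ k := by positivity
  have h1 : (r.1 : ℝ) * 2 ^ k ≤ r.2 := by
    have h3 := mul_le_mul_of_nonneg_right h hk.le
    have e : ((2 : ℝ) ^ k)⁻¹ * (r.2 : ℝ) * 2 ^ k = r.2 := by
      rw [mul_comm _ (r.2 : ℝ), mul_assoc, inv_mul_cancel₀ hk.ne', mul_one]
    rwa [e] at h3
  have h2 : r.1 * 2 ^ k ≤ (r.2 : ℤ) := by exact_mod_cast h1
  have h3 : r.1.toNat * 2 ^ k ≤ r.2 := by
    rcases le_or_gt 0 r.1 with h | h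
    · have : ((r.1.toNat * 2 ^ k : ℕ) : ℤ) ≤ (r.2 : ℤ) := by
        push_cast
        rw [Int.toNat_of_nonneg h]
        exact h2
      exact_mod_cast this
    · have : r.1.toNat = 0 := by omega
      rw [this, zero_mul]
      exact Nat.zero_le _
  simp [h3]

theorem dec_false (k : ℕ) (r : ℤ × ℕ) (h : (1 / 2 : ℝ) ^ k < (r.1 : ℝ) / (r.2 : ℝ)) : dec k r = false := by
  unfold dec
  have hk : (0 : ℝ) < 2 ^ k := by positivity
  by_cases h0 : r.2 = 0
  · rw [h0] at h
    simp at h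
    exact absurd h (not_lt.2 (by positivity))
  have hpos : (0 : ℝ) < r.2 := by
    have : 0 < r.2 := Nat.pos_of_ne_zero h0
    exact_mod_cast this
  rw [lt_div_iff₀ hpos, one_div, inv_pow] at h
  have h1 : (r.2 : ℝ) < (r.1 : ℝ) * 2 ^ k := by
    have h3 := mul_lt_mul_of_pos_right h hk
    have e : ((2 : ℝ) ^ k)⁻¹ * (r.2 : ℝ) * 2 ^ k = r.2 := by
      rw [mul_comm _ (r.2 : ℝ), mul_assoc, inv_mul_cancel₀ hk.ne', mul_one]
    rwa [e] at h3
  have h2 : (r.2 : ℤ) < r.1 * 2 ^ k := by exact_mod_cast h1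
  have h3 : ¬ r.1.toNat * 2 ^ k ≤ r.2 := by
    intro h4
    have h5 : ((r.1.toNat * 2 ^ k : ℕ) : ℤ) ≤ (r.2 : ℤ) := by exact_mod_cast h4
    push_cast at h5
    have h6 := Int.self_le_toNat r.1
    have h7 : (0 : ℤ) < 2 ^ k := by positivity
    nlinarith
  simp [h0, h3]

theorem uncomputable : ∃ m k : ℕ, 1 ≤ k ∧
    ∀ f : (ℕ × ℕ × List (List (ℕ × ℕ))) × ℕ →. ℤ × ℕ, Partrec f →
      ∃ A : Official.Automaton, A.m = m ∧ ¬ ∃ r ∈ f (A.tables, k),
        |(r.1 : ℝ) / (r.2 : ℝ) - Official.hdim (Official.treeClosure A.group)| ≤ (1 / 2 : ℝ) ^ k := by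
  classical
  obtain ⟨Q, hQ, M, q0, N, _, hN, hnc⟩ := Source.exists_sys
  set d := Nat.card (ZZ M) with hd0
  set F := Nat.card (Fx M) with hF0
  have hd : 2 ≤ d := Finite.one_lt_card
  let eF : Fx M ≃ Fin F := Finite.equivFin _
  let eZ : ZZ M ≃ Fin d := Finite.equivFin _
  have hkF : ∀ n : ℕ, 0 < F + (n + 1) := fun n => by omega
  let A : ℕ → Official.Automaton := fun n =>
    mkA (nextS M q0 (N n)) (outS M q0 (N n)) hd (hkF (N n)) (eS M (N n) eF) eZ
  have hdf : 1 < d.factorial := by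
    calc 1 < 2 := by norm_num
      _ = Nat.factorial 2 := rfl
      _ ≤ d.factorial := Nat.factorial_le hd
  have hlog : 0 < Real.log (d.factorial) := Real.log_pos (by exact_mod_cast hdf)
  set c : ℝ := Real.log 2 / Real.log (d.factorial) with hc
  have hc0 : 0 < c := div_pos (Real.log_pos (by norm_num)) hlog
  have hdead : ∀ n, M.Halts (some q0) (Source.ini (N n)) →
      Official.hdim (Official.treeClosure (A n).group) = 0 := by
    intro n hn
    have h := LG_dead M q0 (N n) hn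
    have h2 := mkA_hdim (nextS M q0 (N n)) (outS M q0 (N n)) (sem M q0 (N n)) (rt_sem M q0 (N n))
      (sec_sem M q0 (N n)) hd (hkF (N n)) (eS M (N n) eF) eZ 0 h
    rw [h2, zero_div]
  have hlive : ∀ n, ¬ M.Halts (some q0) (Source.ini (N n)) →
      c ≤ Official.hdim (Official.treeClosure (A n).group) := by
    intro n hn
    obtain ⟨v, hv, h⟩ := LG_live M q0 (N n) hn
    have h2 := mkA_hdim (nextS M q0 (N n)) (outS M q0 (N n)) (sem M q0 (N n)) (rt_sem M q0 (N n))
      (sec_sem M q0 (N n)) hd (hkF (N n)) (eS M (N n) eF) eZ v h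
    rw [h2]
    exact div_le_div_of_nonneg_right hv hlog.le
  obtain ⟨k0, hk0⟩ := exists_pow_lt_of_lt_one (half_pos hc0) (by norm_num : (1 / 2 : ℝ) < 1)
  have hk : (1 / 2 : ℝ) ^ (k0 + 1) < c / 2 := by
    refine lt_of_le_of_lt ?_ hk0
    exact pow_le_pow_of_le_one (by norm_num) (by norm_num) (Nat.le_succ k0)
  refine ⟨d, k0 + 1, by omega, fun f hf => ?_⟩
  by_contra hcon
  push Not at hcon
  apply hnc
  have hex : ∀ n, ∃ r ∈ f ((A n).tables, k0 + 1),
      |(r.1 : ℝ) / (r.2 : ℝ) - Official.hdim (Official.treeClosure (A n).group)| ≤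
        (1 / 2 : ℝ) ^ (k0 + 1) := fun n => hcon (A n) rfl
  choose g hg1 hg2 using hex
  have htab : ∀ n, (A n).tables = tab d F (T0 M q0 eF eZ) (P1 M q0 eF eZ) (P2 M q0 eF eZ) (N n) :=
    fun n => tables_eq M q0 (N n) eF eZ hd (hkF (N n))
  have hgc : Computable g := by
    have h1 : Computable (fun n => (tab d F (T0 M q0 eF eZ) (P1 M q0 eF eZ) (P2 M q0 eF eZ) (N n), k0 + 1)) :=
      Computable.pair ((tab_primrec _ _ _ _ _).to_comp.comp hN) (Computable.const _)
    refine Partrec.of_eq_tot (hf.comp h1) fun n => ?_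
    rw [← htab n]
    exact hg1 n
  have hdc : Computable (fun n => dec (k0 + 1) (g n)) := (dec_primrec _).to_comp.comp hgc
  refine ComputablePred.computable_iff.2 ⟨_, hdc, ?_⟩
  funext n
  rw [eq_iff_iff]
  constructor
  · intro hn
    apply dec_true
    have h3 := hg2 n
    rw [hdead n hn, sub_zero] at h3
    exact (le_abs_self _).trans h3
  · intro h
    by_contra hn
    have h3 := (abs_le.1 (hg2 n)).1
    have h4 := hlive n hn
    rw [dec_false] at h
    · exact absurd h (by simp)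
    · linarith

end Pool.Agent.Helper501.Hdc
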