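import Pool.Agent.Helper501.Hdc.Port

namespace Pool.Agent.Helper501.Hdc

open Equiv Pool.Agent.Helper501.Haus

/-- Counter machines with integer counters: in the state `q` with counters `n`, whose residues are
`r`, the counters become `b i j + a i j * (n j / B)` with `i = ins q r`, and the next state is
`nxt q r` (`none`: stop). -/
structure Eng (J : Type) where
  Q : Type
  I : Type
  B : ℕ
  hB : 0 < B
  l : ℕ
  hl : 0 < l
  a : I → J → ℕ
  b : I → J → ℕ
  ha : ∀ i j, a i j ≤ l
  hb : ∀ i j, b i j ≤ l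
  ins : Q → (J → Fin B) → I
  nxt : Q → (J → Fin B) → Option Q
  rs : Q

namespace Eng

variable {J : Type} (E : Eng J)

/-- residue of an integer -/
def red (z : ℤ) : Fin E.B := ⟨(z % E.B).toNat, by
  have h := E.hB
  have h1 := Int.emod_nonneg z (b := (E.B : ℤ)) (by omega)
  have h2 := Int.emod_lt_of_pos z (b := (E.B : ℤ)) (by omega)
  omega⟩

theorem red_val (z : ℤ) : ((E.red z : ℕ) : ℤ) = z % E.B := by
  have h := E.hB
  have h1 := Int.emod_nonneg z (b := (E.B : ℤ)) (by omega)
  simp [red, h1]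

theorem red_eq (z : ℤ) (i : Fin E.B) (h : z % E.B = i) : E.red z = i := by
  apply Fin.ext
  have := E.red_val z
  omega

theorem red_self (i : Fin E.B) : E.red ((i : ℕ) : ℤ) = i := by
  apply red_eq
  have := i.2
  exact Int.emod_eq_of_lt (by omega) (by omega)

/-- rotation of the residues -/
def rot (z : ℤ) : Perm (Fin E.B) where
  toFun x := E.red ((x : ℕ) + z)
  invFun x := E.red ((x : ℕ) + -z)
  left_inv x := by
    apply red_eq
    rw [red_val, Int.emod_add_emod, add_neg_cancel_right]
    have := x.2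
    exact Int.emod_eq_of_lt (by omega) (by omega)
  right_inv x := by
    apply red_eq
    rw [red_val, Int.emod_add_emod, neg_add_cancel_right]
    have := x.2
    exact Int.emod_eq_of_lt (by omega) (by omega)

theorem rot_apply (z : ℤ) (x : Fin E.B) : E.rot z x = E.red ((x : ℕ) + z) := rfl

theorem rot_add (z y : ℤ) (x : Fin E.B) : E.rot (z + y) x = E.rot z (E.rot y x) := by
  rw [rot_apply, rot_apply, rot_apply]
  apply red_eq
  rw [red_val, red_val, Int.emod_add_emod]
  congr 1
  ring

/-- vectors of residues -/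
abbrev RV : Type := J → Fin E.B

/-- rotation of the vectors of residues -/
def rots (n : J → ℤ) : Perm E.RV := Equiv.piCongrRight fun j => E.rot (n j)

theorem rots_apply (n : J → ℤ) (r : E.RV) (j : J) : E.rots n r j = E.red ((r j : ℕ) + n j) := rfl

theorem rots_add (n m : J → ℤ) : E.rots (n + m) = E.rots n * E.rots m := by
  ext1 r
  funext j
  exact E.rot_add (n j) (m j) (r j)

theorem rots_zero : E.rots 0 = 1 := by
  ext1 r
  funext j
  rw [rots_apply]
  simp [red_self]

/-- quotient vectors -/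
def kap (n : J → ℤ) (r : E.RV) : J → ℤ := fun j => ((r j : ℕ) + n j) / E.B

theorem kap_zero (r : E.RV) : E.kap 0 r = 0 := by
  funext j
  have := (r j).2
  simp only [kap, Pi.zero_apply, add_zero]
  exact Int.ediv_eq_zero_of_lt (by omega) (by omega)

theorem kap_add (n m : J → ℤ) (r : E.RV) :
    E.kap (n + m) r = E.kap n (E.rots m r) + E.kap m r := by
  funext j
  have hB := E.hB
  simp only [kap, Pi.add_apply, rots_apply]
  have e : (((r j : ℕ) : ℤ) + (n j + m j)) =
      (((r j : ℕ) : ℤ) + m j) % E.B + n j + E.B * ((((r j : ℕ) : ℤ) + m j) / E.B) := by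
    have := Int.emod_add_mul_ediv (((r j : ℕ) : ℤ) + m j) E.B
    linarith
  rw [e, Int.add_mul_ediv_left _ _ (by omega), red_val]

theorem kap_neg (n : J → ℤ) (r : E.RV) : E.kap (-n) (E.rots n r) = - E.kap n r := by
  have h := E.kap_add (-n) n r
  rw [neg_add_cancel, kap_zero] at h
  exact eq_neg_of_add_eq_zero_left h.symm

theorem rots_neg (n : J → ℤ) (r : E.RV) : E.rots (-n) (E.rots n r) = r := by
  have h := E.rots_add (-n) n
  rw [neg_add_cancel, rots_zero] at h
  exact (congrArg (fun σ : Perm E.RV => σ r) h).symm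

/-- rates -/
def rho (i : E.I) (c : Fin (2 * E.l + 1)) (j : J) : ℤ := if (c : ℕ) < E.a i j then 1 else 0

/-- shifts -/
def sh (i : E.I) (k : ℕ) (j : J) : ℤ := if k < E.b i j then 1 else 0

/-- sections of the reflections -/
def sig (i : E.I) (c : Fin (2 * E.l + 1)) (j : J) : ℤ :=
  if (c : ℕ) ≤ E.l then - E.sh i (c - 1) j else E.sh i (2 * E.l - c) j

/-- negation of positions -/
def neg (c : Fin (2 * E.l + 1)) : Fin (2 * E.l + 1) :=
  if h : (c : ℕ) = 0 then c else ⟨2 * E.l + 1 - c, by omega⟩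

theorem neg_neg (c : Fin (2 * E.l + 1)) : E.neg (E.neg c) = c := by
  unfold neg
  apply Fin.ext
  split_ifs <;> simp_all <;> omega

theorem neg_eq_zero (c : Fin (2 * E.l + 1)) : ((E.neg c : ℕ) = 0) ↔ (c : ℕ) = 0 := by
  unfold neg
  split_ifs with h
  · rfl
  · simp only; omega

theorem neg_val (c : Fin (2 * E.l + 1)) (hc : (c : ℕ) ≠ 0) : (E.neg c : ℕ) = 2 * E.l + 1 - c := by
  unfold neg; rw [dif_neg hc]

theorem sig_neg (i : E.I) (c : Fin (2 * E.l + 1)) (hc : (c : ℕ) ≠ 0) :
    E.sig i (E.neg c) = - E.sig i c := by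
  funext j
  have h1 := E.neg_val c hc
  have := c.2
  simp only [sig, Pi.neg_apply, h1]
  by_cases h : (c : ℕ) ≤ E.l
  · rw [if_neg (by omega), if_pos h, _root_.neg_neg]
    congr 1; omega
  · rw [if_pos (by omega), if_neg h]
    congr 2; omega

/-- negation as a permutation -/
def negP : Perm (Fin (2 * E.l + 1)) := ⟨E.neg, E.neg, E.neg_neg, E.neg_neg⟩

/-- letters -/
abbrev X : Type := (E.I × Fin (2 * E.l + 1) × E.RV) ⊕ Fin 3

/-- states -/
inductive St : Type
  | T (n : J → ℤ) : St
  | V (b : Bool) : St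
  | U (o : Option E.Q) : St

/-- output permutations -/
def out : E.St → Perm E.X
  | .T n => Equiv.sumCongr (Equiv.prodCongr 1 (Equiv.prodCongr 1 (E.rots n))) 1
  | .V b => Equiv.sumCongr (Equiv.prodCongr 1 (Equiv.prodCongr E.negP 1))
      (if b then Equiv.swap 1 2 else 1)
  | .U o => Equiv.sumCongr (Equiv.prodCongr 1 (Equiv.prodCongr Fin.revPerm 1))
      (if o.isSome then Equiv.swap 0 1 else 1)

open Classical in
/-- next state of the toggles at the centre -/
noncomputable def nx (o : Option E.Q) (i : E.I) (r : E.RV) : Option E.Q :=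
  match o with
  | some q => if E.ins q r = i then E.nxt q r else some E.rs
  | none => some E.rs

open Classical in
/-- transitions -/
noncomputable def nextE : E.St → E.X → E.St
  | .T n, .inl (i, c, r) => .T (fun j => E.rho i c j * E.kap n r j)
  | .T _, .inr _ => .T 0
  | .V b, .inl (i, c, r) => if (c : ℕ) = 0 then .V (b || decide (∃ j, (r j : ℕ) ≠ 0)) else .T (E.sig i c)
  | .V b, .inr y => if b then (if y = 0 then .V false else .T 0) else (if y = 1 then .U (some E.rs) else .V false)
  | .U o, .inl (i, c, r) => if (c : ℕ) = E.l then .U (E.nx o i r) else .T 0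
  | .U (some _), .inr y => if y = 2 then .U (some E.rs) else .T 0
  | .U none, .inr y => if y = 1 then .V false else .U (some E.rs)

/-- The portraits of the states. -/
noncomputable def pp (s : E.St) : Portrait E.X := por E.out E.nextE s

theorem rt_pp (s : E.St) : rt (E.pp s) = E.out s := rfl
theorem sec_pp (s : E.St) (x : E.X) : sec (E.pp s) x = E.pp (E.nextE s x) := sec_por _ _ _ _

/-- The odometers. -/
noncomputable def T (n : J → ℤ) : Portrait E.X := E.pp (.T n)
/-- The reflections. -/
noncomputable def V (b : Bool) : Portrait E.X := E.pp (.V b)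
/-- The toggles. -/
noncomputable def U (o : Option E.Q) : Portrait E.X := E.pp (.U o)

theorem rt_T_inl (n : J → ℤ) (i : E.I) (c : Fin (2 * E.l + 1)) (r : E.RV) :
    rt (E.T n) (.inl (i, c, r)) = .inl (i, c, E.rots n r) := rfl
theorem rt_T_inr (n : J → ℤ) (y : Fin 3) : rt (E.T n) (.inr y) = .inr y := rfl
theorem sec_T_inl (n : J → ℤ) (i : E.I) (c : Fin (2 * E.l + 1)) (r : E.RV) :
    sec (E.T n) (.inl (i, c, r)) = E.T (fun j => E.rho i c j * E.kap n r j) := sec_pp _ _ _
theorem sec_T_inr (n : J → ℤ) (y : Fin 3) : sec (E.T n) (.inr y) = E.T 0 := sec_pp _ _ _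

theorem rt_V_inl (b : Bool) (i : E.I) (c : Fin (2 * E.l + 1)) (r : E.RV) :
    rt (E.V b) (.inl (i, c, r)) = .inl (i, E.neg c, r) := rfl
theorem rt_V_inr (b : Bool) (y : Fin 3) :
    rt (E.V b) (.inr y) = .inr ((if b then Equiv.swap 1 2 else 1 : Perm (Fin 3)) y) := rfl
open Classical in
theorem sec_V_zero (b : Bool) (i : E.I) (c : Fin (2 * E.l + 1)) (r : E.RV) (hc : (c : ℕ) = 0) :
    sec (E.V b) (.inl (i, c, r)) = E.V (b || decide (∃ j, (r j : ℕ) ≠ 0)) := by
  have h := E.sec_pp (.V b) (.inl (i, c, r))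
  rw [nextE, if_pos hc] at h
  exact h
theorem sec_V_inl (b : Bool) (i : E.I) (c : Fin (2 * E.l + 1)) (r : E.RV) (hc : (c : ℕ) ≠ 0) :
    sec (E.V b) (.inl (i, c, r)) = E.T (E.sig i c) := by
  have h := E.sec_pp (.V b) (.inl (i, c, r))
  rw [nextE, if_neg hc] at h
  exact h
theorem sec_V_inr (b : Bool) (y : Fin 3) : sec (E.V b) (.inr y) =
    if b then (if y = 0 then E.V false else E.T 0) else (if y = 1 then E.U (some E.rs) else E.V false) := by
  have h := E.sec_pp (.V b) (.inr y)
  rw [nextE] at h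
  rw [V, h]
  split_ifs <;> rfl

theorem rt_U_inl (o : Option E.Q) (i : E.I) (c : Fin (2 * E.l + 1)) (r : E.RV) :
    rt (E.U o) (.inl (i, c, r)) = .inl (i, c.rev, r) := rfl
theorem rt_U_inr (o : Option E.Q) (y : Fin 3) :
    rt (E.U o) (.inr y) = .inr ((if o.isSome then Equiv.swap 0 1 else 1 : Perm (Fin 3)) y) := rfl
theorem sec_U_l (o : Option E.Q) (i : E.I) (c : Fin (2 * E.l + 1)) (r : E.RV) (hc : (c : ℕ) = E.l) :
    sec (E.U o) (.inl (i, c, r)) = E.U (E.nx o i r) := by
  have h := E.sec_pp (.U o) (.inl (i, c, r))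
  cases o <;> rw [nextE, if_pos hc] at h <;> exact h
theorem sec_U_inl (o : Option E.Q) (i : E.I) (c : Fin (2 * E.l + 1)) (r : E.RV) (hc : (c : ℕ) ≠ E.l) :
    sec (E.U o) (.inl (i, c, r)) = E.T 0 := by
  have h := E.sec_pp (.U o) (.inl (i, c, r))
  cases o <;> rw [nextE, if_neg hc] at h <;> exact h
theorem sec_U_some (q : E.Q) (y : Fin 3) : sec (E.U (some q)) (.inr y) =
    if y = 2 then E.U (some E.rs) else E.T 0 := by
  have h := E.sec_pp (.U (some q)) (.inr y)
  rw [nextE] at h
  rw [U, h]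
  split_ifs <;> rfl
theorem sec_U_none (y : Fin 3) : sec (E.U none) (.inr y) =
    if y = 1 then E.V false else E.U (some E.rs) := by
  have h := E.sec_pp (.U none) (.inr y)
  rw [nextE] at h
  rw [U, h]
  split_ifs <;> rfl

theorem T_zero : E.T 0 = 1 := by
  refine ext_bisim (fun a b => a = E.T 0 ∧ b = 1) ?_ ?_ ⟨rfl, rfl⟩
  · rintro _ _ ⟨rfl, rfl⟩
    ext1 x
    rcases x with ⟨i, c, r⟩ | y
    · rw [rt_T_inl, rots_zero]; rfl
    · rfl
  · rintro _ _ ⟨rfl, rfl⟩ x
    rcases x with ⟨i, c, r⟩ | y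
    · refine ⟨?_, rfl⟩
      rw [sec_T_inl]
      congr 1
      funext j
      rw [kap_zero]
      simp
    · exact ⟨E.sec_T_inr _ _, rfl⟩

theorem T_add (n m : J → ℤ) : E.T (n + m) = E.T n * E.T m := by
  refine ext_bisim (fun a b => ∃ n m, a = E.T (n + m) ∧ b = E.T n * E.T m) ?_ ?_ ⟨n, m, rfl, rfl⟩
  · rintro _ _ ⟨n, m, rfl, rfl⟩
    ext1 x
    rw [rt_mul]
    rcases x with ⟨i, c, r⟩ | y
    · rw [rt_T_inl, rt_T_inl, rt_T_inl, rots_add]; rfl
    · rfl
  · rintro _ _ ⟨n, m, rfl, rfl⟩ x
    rw [sec_mul]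
    rcases x with ⟨i, c, r⟩ | y
    · rw [rt_T_inl, sec_T_inl, sec_T_inl, sec_T_inl]
      refine ⟨_, _, ?_, rfl⟩
      congr 1
      funext j
      rw [kap_add, Pi.add_apply, Pi.add_apply, mul_add]
    · rw [rt_T_inr, sec_T_inr, sec_T_inr, sec_T_inr]
      exact ⟨0, 0, by rw [add_zero], rfl⟩

theorem T_neg (n : J → ℤ) : E.T (-n) = (E.T n)⁻¹ := by
  rw [eq_inv_iff_mul_eq_one, ← T_add, neg_add_cancel, T_zero]

theorem swap_sq : (Equiv.swap 1 2 : Perm (Fin 3)) * Equiv.swap 1 2 = 1 ∧
    (Equiv.swap 0 1 : Perm (Fin 3)) * Equiv.swap 0 1 = 1 := by decide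

/-- squares of the reflections and toggles -/
theorem VU_sq : (∀ b, E.V b * E.V b = 1) ∧ ∀ o, E.U o * E.U o = 1 := by
  have key : ∀ a b : Portrait E.X,
      (a = b ∨ (∃ v, a = E.V v * E.V v ∧ b = 1) ∨ (∃ o, a = E.U o * E.U o ∧ b = 1)) → a = b := by
    intro a b h
    refine ext_bisim (fun a b => a = b ∨ (∃ v, a = E.V v * E.V v ∧ b = 1) ∨
      (∃ o, a = E.U o * E.U o ∧ b = 1)) ?_ ?_ h
    · rintro a b (rfl | ⟨v, rfl, rfl⟩ | ⟨o, rfl, rfl⟩)
      · rfl
      · ext1 x
        rw [rt_mul]
        rcases x with ⟨i, c, r⟩ | y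
        · rw [rt_V_inl, rt_V_inl, neg_neg]; rfl
        · rw [rt_V_inr, rt_V_inr]
          revert y
          cases v
          · intro y; rfl
          · intro y
            have := congrArg (fun σ : Perm (Fin 3) => σ y) swap_sq.1
            exact congrArg Sum.inr this
      · ext1 x
        rw [rt_mul]
        rcases x with ⟨i, c, r⟩ | y
        · rw [rt_U_inl, rt_U_inl, Fin.rev_rev]; rfl
        · rw [rt_U_inr, rt_U_inr]
          cases o
          · rfl
          · have := congrArg (fun σ : Perm (Fin 3) => σ y) swap_sq.2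
            exact congrArg Sum.inr this
    · rintro a b (rfl | ⟨v, rfl, rfl⟩ | ⟨o, rfl, rfl⟩) x
      · exact Or.inl rfl
      · rw [sec_mul]
        rcases x with ⟨i, c, r⟩ | y
        · rw [rt_V_inl]
          by_cases hc : (c : ℕ) = 0
          · rw [E.sec_V_zero _ _ _ _ hc, E.sec_V_zero _ _ _ _ ((E.neg_eq_zero c).2 hc)]
            exact Or.inr (Or.inl ⟨_, rfl, rfl⟩)
          · rw [E.sec_V_inl _ _ _ _ hc, E.sec_V_inl _ _ _ _ (fun h => hc ((E.neg_eq_zero c).1 h)),
              ← T_add, E.sig_neg _ _ hc, neg_add_cancel, T_zero]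
            exact Or.inl rfl
        · rw [rt_V_inr, sec_V_inr, sec_V_inr]
          cases v
          · simp only [Bool.false_eq_true, if_false, Perm.one_apply]
            split_ifs
            · exact Or.inr (Or.inr ⟨_, rfl, rfl⟩)
            · exact Or.inr (Or.inl ⟨_, rfl, rfl⟩)
          · simp only [if_true]
            fin_cases y
            · exact Or.inr (Or.inl ⟨_, rfl, rfl⟩)
            · refine Or.inl ?_
              show (if (Equiv.swap 1 2 : Perm (Fin 3)) 1 = 0 then E.V false else E.T 0) *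
                (if (1 : Fin 3) = 0 then E.V false else E.T 0) = _
              rw [if_neg (by decide), if_neg (by decide), T_zero, one_mul]; rfl
            · refine Or.inl ?_
              show (if (Equiv.swap 1 2 : Perm (Fin 3)) 2 = 0 then E.V false else E.T 0) *
                (if (2 : Fin 3) = 0 then E.V false else E.T 0) = _
              rw [if_neg (by decide), if_neg (by decide), T_zero, one_mul]; rfl
      · rw [sec_mul]
        rcases x with ⟨i, c, r⟩ | y
        · rw [rt_U_inl]
          have hc2 : ((c.rev : ℕ) = E.l) ↔ (c : ℕ) = E.l := by rw [Fin.val_rev]; omega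
          by_cases hc : (c : ℕ) = E.l
          · rw [E.sec_U_l _ _ _ _ hc, E.sec_U_l _ _ _ _ (hc2.2 hc)]
            exact Or.inr (Or.inr ⟨_, rfl, rfl⟩)
          · rw [E.sec_U_inl _ _ _ _ hc, E.sec_U_inl _ _ _ _ (fun h => hc (hc2.1 h)), T_zero, one_mul]
            exact Or.inl rfl
        · rw [rt_U_inr]
          cases o with
          | none =>
            rw [sec_U_none, sec_U_none]
            simp only [Option.isSome_none, Bool.false_eq_true, if_false, Perm.one_apply]
            split_ifs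
            · exact Or.inr (Or.inl ⟨_, rfl, rfl⟩)
            · exact Or.inr (Or.inr ⟨_, rfl, rfl⟩)
          | some q =>
            rw [sec_U_some, sec_U_some]
            simp only [Option.isSome_some, if_true]
            fin_cases y
            · refine Or.inl ?_
              show (if (Equiv.swap 0 1 : Perm (Fin 3)) 0 = 2 then E.U (some E.rs) else E.T 0) *
                (if (0 : Fin 3) = 2 then E.U (some E.rs) else E.T 0) = _
              rw [if_neg (by decide), if_neg (by decide), T_zero, one_mul]; rfl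
            · refine Or.inl ?_
              show (if (Equiv.swap 0 1 : Perm (Fin 3)) 1 = 2 then E.U (some E.rs) else E.T 0) *
                (if (1 : Fin 3) = 2 then E.U (some E.rs) else E.T 0) = _
              rw [if_neg (by decide), if_neg (by decide), T_zero, one_mul]; rfl
            · refine Or.inr (Or.inr ⟨some E.rs, ?_, rfl⟩)
              show (if (Equiv.swap 0 1 : Perm (Fin 3)) 2 = 2 then E.U (some E.rs) else E.T 0) *
                (if (2 : Fin 3) = 2 then E.U (some E.rs) else E.T 0) = _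
              rw [if_pos (by decide), if_pos (by decide)]
  exact ⟨fun b => key _ _ (Or.inr (Or.inl ⟨b, rfl, rfl⟩)),
    fun o => key _ _ (Or.inr (Or.inr ⟨o, rfl, rfl⟩))⟩

theorem V_sq (b : Bool) : E.V b * E.V b = 1 := E.VU_sq.1 b
theorem U_sq (o : Option E.Q) : E.U o * E.U o = 1 := E.VU_sq.2 o

end Eng

end Pool.Agent.Helper501.Hdc
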