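import Pool.Agent.Helper501.Haus.Bridge

namespace Pool.Agent.Helper501.Hdc

open Equiv Pool.Agent.Helper501.Haus

section basic

variable {X : Type}

/-- First letter. -/
def hd : (n : ℕ) → Wd X (n + 1) → X
  | 0, q => lst q
  | n + 1, q => hd n (ini q)

/-- All but the first letter. -/
def tl : (n : ℕ) → Wd X (n + 1) → Wd X n
  | 0, _ => (() : Wd X 0)
  | n + 1, q => sn (tl n (ini q)) (lst q)

theorem hd_cons (x : X) (n : ℕ) (w : Wd X n) : hd n (cons x n w) = x := by
  induction n with
  | zero => rfl
  | succ n ih => exact ih (ini w)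

theorem tl_cons (x : X) (n : ℕ) (w : Wd X n) : tl n (cons x n w) = w := by
  induction n with
  | zero => rfl
  | succ n ih =>
    obtain ⟨w, y, rfl⟩ := exists_sn w
    show sn (tl n (cons x n w)) y = sn w y
    rw [ih]

/-- A portrait from its root label and sections. -/
def glue (σ : Perm X) (f : X → Portrait X) : Portrait X where
  lab
  | 0, _ => σ
  | n + 1, v => (f (hd n v)).lab n (tl n v)

theorem rt_glue (σ : Perm X) (f : X → Portrait X) : rt (glue σ f) = σ := rfl

theorem sec_glue (σ : Perm X) (f : X → Portrait X) (x : X) : sec (glue σ f) x = f x := by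
  apply Portrait.ext
  funext n w
  show (f (hd n (cons x n w))).lab n (tl n (cons x n w)) = _
  rw [hd_cons, tl_cons]

theorem rt_inv (a : Portrait X) : rt a⁻¹ = (rt a)⁻¹ := rfl

theorem rt_mul' (a b : Portrait X) : rt (a * b) = rt a * rt b := rfl

theorem sec_inv (a : Portrait X) (x : X) : sec a⁻¹ x = (sec a ((rt a)⁻¹ x))⁻¹ := by
  have h := sec_mul a⁻¹ a ((rt a)⁻¹ x)
  have h2 : rt a ((rt a)⁻¹ x) = x := (rt a).apply_symm_apply x
  rw [inv_mul_cancel, sec_one, h2] at h
  exact eq_inv_of_mul_eq_one_left h.symm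

theorem ext_bisim (P : Portrait X → Portrait X → Prop) (h1 : ∀ a b, P a b → rt a = rt b)
    (h2 : ∀ a b, P a b → ∀ x, P (sec a x) (sec b x)) {a b : Portrait X} (h : P a b) : a = b := by
  have key : ∀ n (w : Wd X n) a b, P a b → a.lab n w = b.lab n w := by
    intro n
    induction n with
    | zero => intro w a b h; exact h1 a b h
    | succ n ih =>
      intro w a b h
      obtain ⟨x, w, rfl⟩ := exists_cons n w
      exact ih w _ _ (h2 a b h x)
  apply Portrait.ext
  funext n w
  exact key n w a b h

theorem ext_rt_sec {a b : Portrait X} (h1 : rt a = rt b) (h2 : ∀ x, sec a x = sec b x) : a = b := by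
  refine ext_bisim (fun a b => a = b ∨ (rt a = rt b ∧ ∀ x, sec a x = sec b x)) ?_ ?_ (Or.inr ⟨h1, h2⟩)
  · rintro a b (rfl | h)
    · rfl
    · exact h.1
  · rintro a b (rfl | h) x
    · exact Or.inl rfl
    · exact Or.inl (h.2 x)

end basic

section automaton

variable {X S : Type} (out : S → Perm X) (nxt : S → X → S)

/-- The state after reading a word. -/
def run (s : S) : (n : ℕ) → Wd X n → S
  | 0, _ => s
  | n + 1, q => nxt (run s n (ini q)) (lst q)

theorem run_cons (s : S) (x : X) (n : ℕ) (w : Wd X n) :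
    run nxt s (n + 1) (cons x n w) = run nxt (nxt s x) n w := by
  induction n with
  | zero => rfl
  | succ n ih =>
    obtain ⟨w, y, rfl⟩ := exists_sn w
    show nxt (run nxt s (n + 1) (cons x n w)) y = nxt (run nxt (nxt s x) n w) y
    rw [ih]

/-- The portrait of a state. -/
def por (s : S) : Portrait X := ⟨fun n w => out (run nxt s n w)⟩

theorem rt_por (s : S) : rt (por out nxt s) = out s := rfl

theorem sec_por (s : S) (x : X) : sec (por out nxt s) x = por out nxt (nxt s x) := by
  apply Portrait.ext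
  funext n w
  show out (run nxt s (n + 1) (cons x n w)) = out (run nxt (nxt s x) n w)
  rw [run_cons]

end automaton

section lift

variable {X Y : Type}

/-- First coordinates. -/
def fstW : (n : ℕ) → Wd (X × Y) n → Wd X n
  | 0, _ => (() : Wd X 0)
  | n + 1, q => sn (fstW n (ini q)) (lst q).1

theorem fstW_sn (n : ℕ) (w : Wd (X × Y) n) (x : X × Y) :
    fstW (n + 1) (sn w x) = sn (fstW n w) x.1 := rfl

theorem fstW_cons (n : ℕ) (w : Wd (X × Y) n) (x : X × Y) :
    fstW (n + 1) (cons x n w) = cons x.1 n (fstW n w) := by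
  induction n with
  | zero => rfl
  | succ n ih =>
    obtain ⟨w, y, rfl⟩ := exists_sn w
    rw [cons_sn, fstW_sn, ih, fstW_sn, cons_sn]

/-- Lift to words with a second coordinate. -/
def lift0 (Y : Type) (a : Portrait X) : Portrait (X × Y) :=
  ⟨fun n w => Equiv.prodCongr (a.lab n (fstW n w)) (Equiv.refl Y)⟩

theorem lift0_lab (a : Portrait X) (n : ℕ) (w : Wd (X × Y) n) :
    (lift0 Y a).lab n w = Equiv.prodCongr (a.lab n (fstW n w)) (Equiv.refl Y) := rfl

theorem fstW_lev (a : Portrait X) (n : ℕ) (w : Wd (X × Y) n) :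
    fstW n (lev (lift0 Y a) n w) = lev a n (fstW n w) := by
  induction n with
  | zero => rfl
  | succ n ih =>
    obtain ⟨w, x, rfl⟩ := exists_sn w
    rw [lev_succ, fstW_sn, ih, fstW_sn, lev_succ]; rfl

/-- The lift as a homomorphism. -/
def lift (X Y : Type) : Portrait X →* Portrait (X × Y) where
  toFun := lift0 Y
  map_one' := by
    apply Portrait.ext
    funext n w
    rfl
  map_mul' a b := by
    apply Portrait.ext
    funext n w
    rw [mul_lab, lift0_lab, lift0_lab, lift0_lab, mul_lab, fstW_lev]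
    rfl

theorem rt_lift (a : Portrait X) : rt (lift X Y a) = Equiv.prodCongr (rt a) (Equiv.refl Y) := rfl

theorem sec_lift (a : Portrait X) (x : X × Y) : sec (lift X Y a) x = lift X Y (sec a x.1) := by
  apply Portrait.ext
  funext n w
  show (lift0 Y a).lab (n + 1) (cons x n w) = (lift0 Y (sec a x.1)).lab n w
  rw [lift0_lab, lift0_lab, fstW_cons]; rfl

end lift

end Pool.Agent.Helper501.Hdc
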