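import Pool.Agent.Helper501.Hdc.Port

namespace Pool.Agent.Helper501.Hdc

open Equiv Pool.Agent.Helper501.Haus

section relabel

variable {X Y : Type} (e : X ≃ Y)

/-- relabelled words -/
def wmap : (n : ℕ) → Wd X n ≃ Wd Y n
  | 0 => Equiv.refl Unit
  | n + 1 =>
    { toFun := fun q => sn (wmap n (ini q)) (e (lst q))
      invFun := fun q => sn ((wmap n).symm (ini q)) (e.symm (lst q))
      left_inv := by
        intro q
        obtain ⟨w, x, rfl⟩ := exists_sn q
        simp
      right_inv := by
        intro q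
        obtain ⟨w, x, rfl⟩ := exists_sn q
        simp }

theorem wmap_sn (n : ℕ) (w : Wd X n) (x : X) : wmap e (n + 1) (sn w x) = sn (wmap e n w) (e x) := rfl

theorem wmap_cons (x : X) (n : ℕ) (w : Wd X n) :
    wmap e (n + 1) (cons x n w) = cons (e x) n (wmap e n w) := by
  induction n with
  | zero => rfl
  | succ n ih =>
    obtain ⟨w, y, rfl⟩ := exists_sn w
    rw [cons_sn, wmap_sn, ih, wmap_sn, cons_sn]

/-- relabelled families of permutations -/
def fmap (n : ℕ) : (Wd X n → Perm X) ≃ (Wd Y n → Perm Y) :=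
  Equiv.arrowCongr (wmap e n) e.permCongr

theorem fmap_apply (n : ℕ) (k : Wd X n → Perm X) (w : Wd X n) :
    fmap e n k (wmap e n w) = e.permCongr (k w) := by
  simp [fmap]

theorem fmap_one (n : ℕ) : fmap e n 1 = 1 := by
  funext w
  obtain ⟨w, rfl⟩ := (wmap e n).surjective w
  rw [fmap_apply]
  ext1 y
  simp

/-- relabelled portraits -/
def rel0 (a : Portrait X) : Portrait Y := ⟨fun n => fmap e n (a.lab n)⟩

theorem rel0_lab (a : Portrait X) (n : ℕ) : (rel0 e a).lab n = fmap e n (a.lab n) := rfl

theorem lev_rel0 (a : Portrait X) (n : ℕ) (w : Wd X n) :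
    lev (rel0 e a) n (wmap e n w) = wmap e n (lev a n w) := by
  induction n with
  | zero => rfl
  | succ n ih =>
    obtain ⟨w, x, rfl⟩ := exists_sn w
    rw [wmap_sn, lev_succ, lev_succ, wmap_sn, ih, rel0_lab, fmap_apply]
    congr 1
    simp

/-- relabelling as a homomorphism -/
def rel : Portrait X →* Portrait Y where
  toFun := rel0 e
  map_one' := by
    apply Portrait.ext
    funext n
    exact fmap_one e n
  map_mul' a b := by
    apply Portrait.ext
    funext n w
    obtain ⟨w, rfl⟩ := (wmap e n).surjective w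
    rw [rel0_lab, fmap_apply, mul_lab, mul_lab, rel0_lab, rel0_lab, lev_rel0, fmap_apply, fmap_apply]
    ext1 y
    simp

theorem rt_rel (a : Portrait X) (x : X) : rt (rel e a) (e x) = e (rt a x) := by
  show fmap e 0 (a.lab 0) (wmap e 0 ()) (e x) = _
  rw [fmap_apply]
  simp [rt]

theorem sec_rel (a : Portrait X) (x : X) : sec (rel e a) (e x) = rel e (sec a x) := by
  apply Portrait.ext
  funext n w
  obtain ⟨w, rfl⟩ := (wmap e n).surjective w
  rw [sec_lab]
  show fmap e (n + 1) (a.lab (n + 1)) _ = fmap e n ((sec a x).lab n) _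
  rw [← wmap_cons, fmap_apply, fmap_apply, sec_lab]

theorem actL_rel (a : Portrait X) (w : List X) : actL (rel e a) (w.map e) = (actL a w).map e := by
  induction w generalizing a with
  | nil => rfl
  | cons x w ih => rw [List.map_cons, actL_cons, rt_rel, sec_rel, ih, actL_cons, List.map_cons]

theorem card_KK_rel (G : Subgroup (Portrait X)) (n : ℕ) :
    Nat.card (KK (G.map (rel e)) n) = Nat.card (KK G n) := by
  symm
  refine Nat.card_congr (Equiv.subtypeEquiv (fmap e n) fun k => ?_)
  rw [mem_KK, mem_KK]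
  constructor
  · rintro ⟨g, hg, h1, rfl⟩
    refine ⟨rel e g, ⟨g, hg, rfl⟩, fun j hj => ?_, rfl⟩
    show fmap e j (g.lab j) = 1
    rw [h1 j hj, fmap_one]
  · rintro ⟨_, ⟨g, hg, rfl⟩, h1, h2⟩
    refine ⟨g, hg, fun j hj => ?_, (fmap e n).injective h2⟩
    have h3 : fmap e j (g.lab j) = 1 := h1 j hj
    rw [← fmap_one e j] at h3
    exact (fmap e j).injective h3

theorem aa_rel [Fintype X] [Fintype Y] (G : Subgroup (Portrait X)) : aa (G.map (rel e)) = aa G := by
  funext n
  unfold aa
  rw [card_KK_rel, Fintype.card_congr e]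

end relabel

end Pool.Agent.Helper501.Hdc
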