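import Pool.Agent.Helper501.Hdc.Defs
import Pool.Agent.Helper501.Hdc.Rel

namespace Pool.Agent.Helper501.Hdc

open Equiv Pool.Agent.Helper501.Haus Filter Topology

section transfer

variable {S Z : Type} (next : S → Z → S) (out : S → Perm Z) (sm : S → Portrait Z)
  (h1 : ∀ s, rt (sm s) = out s) (h2 : ∀ s z, sec (sm s) z = sm (next s z))
  {m k : ℕ} (hm : 2 ≤ m) (hk : 0 < k) (eS : S ≃ Fin k) (eZ : Z ≃ Fin m)

/-- the automaton with numbered states and letters -/
@[reducible] def mkA : Official.Automaton where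
  m := m
  s := k
  two_le := hm
  pos := hk
  next := fun q x => eS (next (eS.symm q) (eZ.symm x))
  out := fun q => eZ.permCongr (out (eS.symm q))

include h1 h2 in
theorem mkA_act (s : S) (w : List Z) : (mkA next out hm hk eS eZ).act (eS s) (w.map eZ) =
    (actL (sm s) w).map eZ := by
  induction w generalizing s with
  | nil => rfl
  | cons x w ih =>
    rw [List.map_cons, actL_cons, List.map_cons, h1, h2, ← ih]
    show (eZ.permCongr (out (eS.symm (eS s)))) (eZ x) ::
      (mkA next out hm hk eS eZ).act (eS (next (eS.symm (eS s)) (eZ.symm (eZ x)))) (w.map eZ) = _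
    rw [Equiv.symm_apply_apply, Equiv.symm_apply_apply, Equiv.permCongr_apply,
      Equiv.symm_apply_apply]

include h1 h2 in
theorem mkA_perm (s : S) : (mkA next out hm hk eS eZ).perm (eS s) = toPerm (Fin m) (rel eZ (sm s)) := by
  ext1 w
  obtain ⟨w, rfl⟩ : ∃ v : List Z, w = v.map eZ := ⟨w.map eZ.symm, by
    rw [List.map_map]
    have : (eZ : Z → Fin m) ∘ eZ.symm = id := by funext x; simp
    rw [this, List.map_id]⟩
  show _ = actL (rel eZ (sm s)) (w.map eZ)
  rw [actL_rel]
  exact mkA_act next out sm h1 h2 hm hk eS eZ s w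

include h1 h2 in
theorem mkA_group : (mkA next out hm hk eS eZ).group =
    ((Subgroup.closure (Set.range sm)).map (rel eZ)).map (toPerm (Fin m)) := by
  unfold Official.Automaton.group
  rw [MonoidHom.map_closure, MonoidHom.map_closure]
  congr 1
  ext f
  constructor
  · rintro ⟨q, rfl⟩
    have := mkA_perm next out sm h1 h2 hm hk eS eZ (eS.symm q)
    rw [Equiv.apply_symm_apply] at this
    rw [this]
    exact ⟨_, ⟨_, ⟨_, rfl⟩, rfl⟩, rfl⟩
  · rintro ⟨_, ⟨_, ⟨s, rfl⟩, rfl⟩, rfl⟩
    exact ⟨eS s, mkA_perm next out sm h1 h2 hm hk eS eZ s⟩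

include h1 h2 in
theorem mkA_hdim [Fintype Z] (v : ℝ) (hv : Tendsto (aa (Subgroup.closure (Set.range sm))) atTop (𝓝 v)) :
    Official.hdim (Official.treeClosure (mkA next out hm hk eS eZ).group) =
      v / Real.log (m.factorial) := by
  rw [mkA_group next out sm h1 h2 hm hk eS eZ]
  refine hdim_eq hm _ v ?_
  rw [aa_rel]
  exact hv

end transfer

end Pool.Agent.Helper501.Hdc
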