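import Pool.Agent.Helper501.Hdc.Dims
import Pool.Agent.Helper501.Hdc.Tr

namespace Pool.Agent.Helper501.Hdc

open Equiv Pool.Agent.Helper501.Haus Filter Topology

section tables

/-- rows of the tables -/
def row (F : ℕ) (T0 : List (List (ℕ × ℕ))) (P1 P2 : List (ℕ × ℕ)) (N s : ℕ) : List (ℕ × ℕ) :=
  if s < F then T0.getD s []
  else if s < F + N then P1.map (fun p => (if p.1 = 0 then s + 1 else p.1 - 1, p.2))
  else P2

/-- the tables -/
def tab (d F : ℕ) (T0 : List (List (ℕ × ℕ))) (P1 P2 : List (ℕ × ℕ)) (N : ℕ) :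
    ℕ × ℕ × List (List (ℕ × ℕ)) :=
  (d, F + (N + 1), (List.range (F + (N + 1))).map (row F T0 P1 P2 N))

theorem row_primrec (F : ℕ) (T0 : List (List (ℕ × ℕ))) (P1 P2 : List (ℕ × ℕ)) :
    Primrec₂ (row F T0 P1 P2) := by
  unfold row
  refine Primrec.ite (Primrec.nat_lt.comp Primrec.snd (Primrec.const F)) ?_ ?_
  · exact (Primrec.list_getD []).comp (Primrec.const T0) Primrec.snd
  refine Primrec.ite (Primrec.nat_lt.comp Primrec.snd
    (Primrec.nat_add.comp (Primrec.const F) Primrec.fst)) ?_ (Primrec.const P2)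
  have h2 : Primrec (fun q : (ℕ × ℕ) × (ℕ × ℕ) =>
      (if q.2.1 = 0 then q.1.2 + 1 else q.2.1 - 1, q.2.2)) := by
    refine Primrec.pair ?_ (Primrec.snd.comp Primrec.snd)
    refine Primrec.ite (Primrec.eq.comp (Primrec.fst.comp Primrec.snd) (Primrec.const 0)) ?_ ?_
    · exact Primrec.succ.comp (Primrec.snd.comp Primrec.fst)
    · exact Primrec.pred.comp (Primrec.fst.comp Primrec.snd)
  exact Primrec.list_map (Primrec.const P1) h2.to₂

theorem tab_primrec (d F : ℕ) (T0 : List (List (ℕ × ℕ))) (P1 P2 : List (ℕ × ℕ)) :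
    Primrec (tab d F T0 P1 P2) := by
  have h : Primrec (fun N : ℕ => F + (N + 1)) :=
    Primrec.nat_add.comp (Primrec.const F) Primrec.succ
  unfold tab
  exact Primrec.pair (Primrec.const d) (Primrec.pair h
    (Primrec.list_map (Primrec.list_range.comp h) (row_primrec F T0 P1 P2)))

theorem ofFn_range {α : Type} (k : ℕ) (f : Fin k → α) (g : ℕ → α) (h : ∀ i : Fin k, f i = g i) :
    List.ofFn f = (List.range k).map g := by
  apply List.ext_getElem
  · simp
  · intro i h1 h2
    simp [h]

variable {Q : Type} (M : Sys Q Bool) (q0 : Q) (N : ℕ)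

instance finLS {X : Type} [Finite X] : Finite (LS X) := by
  let f : LS X → (X × Perm (Fin 5)) ⊕ Perm (Fin 5) ⊕ Unit := fun i =>
    match i with
    | .C x α => .inl (x, α)
    | .R α => .inr (.inl α)
    | .O => .inr (.inr ())
  refine Finite.of_injective f ?_
  intro a b h
  cases a <;> cases b <;> simp_all [f]

instance finFx [Finite Q] : Finite (Fx M) := by
  let f : Fx M → (Bool → Fin 3) ⊕ Bool ⊕ Option (Option Q) ⊕ LS (XX M) := fun i =>
    match i with
    | .t e => .inl e
    | .v b => .inr (.inl b)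
    | .u o => .inr (.inr (.inl o))
    | .c s => .inr (.inr (.inr s))
  refine Finite.of_injective f ?_
  intro a b h
  cases a <;> cases b <;> simp_all [f]

variable {F d : ℕ} (eF : Fx M ≃ Fin F) (eZ : ZZ M ≃ Fin d)

/-- numbering of the states -/
def eS : Fx M ⊕ Fin (N + 1) ≃ Fin (F + (N + 1)) :=
  (Equiv.sumCongr eF (Equiv.refl _)).trans finSumFinEquiv

theorem eS_inl (f : Fx M) : ((eS M N eF (.inl f) : Fin (F + (N + 1))) : ℕ) = eF f := by
  simp [eS]

theorem eS_inr (k : Fin (N + 1)) : ((eS M N eF (.inr k) : Fin (F + (N + 1))) : ℕ) = F + k := by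
  simp [eS]

/-- the fixed rows -/
noncomputable def T0 : List (List (ℕ × ℕ)) := List.ofFn fun f : Fin F => List.ofFn fun x : Fin d =>
  ((nextF M q0 (eF.symm f) (eZ.symm x)).elim F (fun f' => (eF f' : ℕ)),
    (eZ (outF M q0 (eF.symm f) (eZ.symm x)) : ℕ))

/-- the pattern of the rows of the loaders -/
noncomputable def P1 : List (ℕ × ℕ) := List.ofFn fun x : Fin d =>
  ((nextV M (eZ.symm x)).elim 0 (fun f' => (eF f' : ℕ) + 1), (eZ (outV M q0 (eZ.symm x)) : ℕ))

/-- the last row -/
noncomputable def P2 : List (ℕ × ℕ) := List.ofFn fun x : Fin d =>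
  ((eF (lastV M q0 (eZ.symm x)) : ℕ), (eZ (outV M q0 (eZ.symm x)) : ℕ))

theorem tables_eq (hd : 2 ≤ d) (hk : 0 < F + (N + 1)) :
    (mkA (nextS M q0 N) (outS M q0 N) hd hk (eS M N eF) eZ).tables =
      tab d F (T0 M q0 eF eZ) (P1 M q0 eF eZ) (P2 M q0 eF eZ) N := by
  unfold Official.Automaton.tables tab
  show (d, F + (N + 1), _) = _
  congr 2
  apply ofFn_range
  intro i
  obtain ⟨s, rfl⟩ := (eS M N eF).surjective i
  show (List.ofFn fun x : Fin d =>
    ((eS M N eF (nextS M q0 N ((eS M N eF).symm (eS M N eF s)) (eZ.symm x)) : ℕ),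
      (eZ.permCongr (outS M q0 N ((eS M N eF).symm (eS M N eF s))) x : ℕ))) = _
  rw [Equiv.symm_apply_apply]
  unfold row
  rcases s with f | k
  · rw [eS_inl, if_pos (eF f).2]
    unfold T0
    rw [List.getD_eq_getElem _ _ (by simp)]
    simp only [List.getElem_ofFn, Fin.eta, Equiv.symm_apply_apply]
    congr 1
    funext x
    congr 1
    show ((eS M N eF ((nextF M q0 f (eZ.symm x)).elim (.inr 0) .inl) : Fin (F + (N + 1))) : ℕ) = _
    cases nextF M q0 f (eZ.symm x) with
    | none => exact eS_inr M N eF 0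
    | some f' => exact eS_inl M N eF f'
  · rw [eS_inr, if_neg (by omega)]
    by_cases hk : (k : ℕ) < N
    · rw [if_pos (by omega)]
      unfold P1
      rw [List.map_ofFn]
      congr 1
      funext x
      simp only [Function.comp]
      congr 1
      simp only [nextS, dif_pos hk]
      cases nextV M (eZ.symm x) with
      | none => exact eS_inr M N eF ⟨k + 1, by omega⟩
      | some f' => exact eS_inl M N eF f'
    · rw [if_neg (by omega)]
      unfold P2
      congr 1
      funext x
      congr 1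
      simp only [nextS, dif_neg hk]
      exact eS_inl M N eF _

end tables

end Pool.Agent.Helper501.Hdc
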